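import Pool.Agent.Work.MP_69fea5_lc.HK.Calc

/-!
# Hindman's theorem for colourings whose limit set contains a tower minimal set

Definitions: closed invariant equivalence relations on a minimal subshift, steps, towers.
-/

set_option autoImplicit false

namespace Pool.Agent.Work.MP_69fea5_lc.TW

open HK

variable {k : ℕ}

/-- the shift by `x` -/
def sh (x : ℕ) (z : ℕ → Fin k) : ℕ → Fin k := fun i => z (x + i)

/-- a minimal subshift -/
structure MinimalSubshift (M : Set (ℕ → Fin k)) : Prop where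
  nonempty : M.Nonempty
  closed : IsClosed M
  shift : ∀ z ∈ M, (fun n => z (n + 1)) ∈ M
  minimal : ∀ N ⊆ M, N.Nonempty → IsClosed N → (∀ z ∈ N, (fun n => z (n + 1)) ∈ N) → N = M

/-- closed shift invariant equivalence relations on `M` -/
structure ICER (M : Set (ℕ → Fin k)) (R : Set ((ℕ → Fin k) × (ℕ → Fin k))) : Prop where
  closed : IsClosed R
  sub : ∀ a b, (a, b) ∈ R → a ∈ M ∧ b ∈ M
  refl : ∀ a ∈ M, (a, a) ∈ R
  symm : ∀ a b, (a, b) ∈ R → (b, a) ∈ R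
  trans : ∀ a b d, (a, b) ∈ R → (b, d) ∈ R → (a, d) ∈ R
  shift : ∀ a b, (a, b) ∈ R → ((fun n => a (n + 1)), (fun n => b (n + 1))) ∈ R

/-- the first `m` terms of `a`, `b` are those of a pair in `R` -/
def Close (R : Set ((ℕ → Fin k) × (ℕ → Fin k))) (m : ℕ) (a b : ℕ → Fin k) : Prop :=
  ∃ p ∈ R, (∀ i < m, p.1 i = a i) ∧ ∀ i < m, p.2 i = b i

/-- `a` and `b` are proximal modulo `R` -/
def ProxMod (R : Set ((ℕ → Fin k) × (ℕ → Fin k))) (a b : ℕ → Fin k) : Prop :=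
  ∀ m, ∃ x, Close R m (sh x a) (sh x b)

/-- proximal step from `R` to `R'` -/
def ProxStep (R R' : Set ((ℕ → Fin k) × (ℕ → Fin k))) : Prop :=
  ∀ a b, (a, b) ∈ R → ProxMod R' a b

/-- distal step from `R` to `R'` -/
def DistStep (R R' : Set ((ℕ → Fin k) × (ℕ → Fin k))) : Prop :=
  ∀ a b, (a, b) ∈ R → ProxMod R' a b → (a, b) ∈ R'

/-- every class of `R` consists of at most `p` classes of `R'` -/
def FinStep (R R' : Set ((ℕ → Fin k) × (ℕ → Fin k))) : Prop :=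
  ∃ p, ∀ f : ℕ → (ℕ → Fin k), (∀ i ≤ p, (f 0, f i) ∈ R) → ∃ i ≤ p, ∃ j < i, (f j, f i) ∈ R'

/-- `y` is proximal to `c` modulo `R`, arbitrarily late -/
def Right (R : Set ((ℕ → Fin k) × (ℕ → Fin k))) (c y : ℕ → Fin k) : Prop :=
  ∀ m N, ∃ x, N ≤ x ∧ Close R m (sh x y) (sh x c)

/-- codes of closed sets of sequences: the set of finite prefixes -/
def pre (E : Set (ℕ → Fin k)) (w : List (Fin k)) : Prop :=
  ∃ z ∈ E, ∀ i (h : i < w.length), z i = w[i]

/-- codes of closed relations -/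
def pre2 (R : Set ((ℕ → Fin k) × (ℕ → Fin k))) (w : List (Fin k) × List (Fin k)) : Prop :=
  ∃ p ∈ R, (∀ i (h : i < w.1.length), p.1 i = w.1[i]) ∧
    ∀ i (h : i < w.2.length), p.2 i = w.2[i]

/-- `R` is reached: there is a nonempty closed saturated set in `S` all of whose points are
right for `R` -/
def Good (S : Set (Set ℕ)) (M : Set (ℕ → Fin k)) (c : ℕ → Fin k)
    (R : Set ((ℕ → Fin k) × (ℕ → Fin k))) : Prop :=
  ∃ E : Set (ℕ → Fin k), E.Nonempty ∧ IsClosed E ∧ E ⊆ M ∧ (∀ y ∈ E, ∀ z, (y, z) ∈ R → z ∈ E) ∧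
    (∀ y ∈ E, Right R c y) ∧ Ar S (pre E)

/-- the set of the points `y` of `K` such that `(c, z)` returns to `(y, z)` modulo `R` for all
`z` in `K` -/
def Ret (R : Set ((ℕ → Fin k) × (ℕ → Fin k))) (c : ℕ → Fin k) (K : Set (ℕ → Fin k)) :
    Set (ℕ → Fin k) :=
  {y | y ∈ K ∧ ∀ z ∈ K, ∀ m N, ∃ x, N ≤ x ∧ Close R m (sh x c) y ∧ Close R m (sh x z) z}

/-- points which do not meet `c` modulo `R` at scale `m` after `N` -/
def Bad (R : Set ((ℕ → Fin k) × (ℕ → Fin k))) (c : ℕ → Fin k) (m N : ℕ) (y : ℕ → Fin k) : Prop :=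
  ∀ x, N ≤ x → ¬ Close R m (sh x y) (sh x c)

/-- points which are separated modulo `R` at all times -/
def Sep (R : Set ((ℕ → Fin k) × (ℕ → Fin k))) (s : ℕ) (a b : ℕ → Fin k) : Prop :=
  ∀ x, ¬ Close R s (sh x a) (sh x b)

/-- the points whose class modulo `R` contains `j` separated bad points, the point itself being
separated from all of them; `q = (j, m, N, s)` -/
def AA (R R' : Set ((ℕ → Fin k) × (ℕ → Fin k))) (c : ℕ → Fin k) (q : ℕ × ℕ × ℕ × ℕ) :
    Set (ℕ → Fin k) :=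
  {y | ∃ z, (z, y) ∈ R' ∧ ∃ f : ℕ → (ℕ → Fin k), ∀ a < q.1, (z, f a) ∈ R ∧
    Bad R' c q.2.1 q.2.2.1 (f a) ∧ Sep R' q.2.2.2 z (f a) ∧
    ∀ b < q.1, b ≠ a → Sep R' q.2.2.2 (f b) (f a)}

/-- minimal sets that are built up by distal blocks and towers of proximal and finite steps -/
inductive Built (S : Set (Set ℕ)) (M : Set (ℕ → Fin k)) (c : ℕ → Fin k) :
    Set ((ℕ → Fin k) × (ℕ → Fin k)) → Prop
  | point (R : Set ((ℕ → Fin k) × (ℕ → Fin k))) (hR : ICER M R) (hS : Ar S (pre2 R))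
      (y : ℕ → Fin k) (hy : y ∈ M) (hyc : ProxMod R y c)
      (hd : ∀ z ∈ M, ProxMod R y z → (y, z) ∈ R) : Built S M c R
  | distal (R R' : Set ((ℕ → Fin k) × (ℕ → Fin k))) (h : Built S M c R) (hR' : ICER M R')
      (hS : Ar S (pre2 R')) (hRR : R' ⊆ R) (hd : DistStep R R') : Built S M c R'
  | tower (R : ℕ → Set ((ℕ → Fin k) × (ℕ → Fin k))) (h : Built S M c (R 0))
      (hR : ∀ n, ICER M (R n)) (hS : Ar S fun p : ℕ × List (Fin k) × List (Fin k) =>
        pre2 (R p.1) p.2) (hRR : ∀ n, R (n + 1) ⊆ R n)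
      (hs : ∀ n, ProxStep (R n) (R (n + 1)) ∨ DistStep (R n) (R (n + 1)) ∧
        FinStep (R n) (R (n + 1))) : Built S M c (⋂ n, R n)

end Pool.Agent.Work.MP_69fea5_lc.TW
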