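import Pool.Agent.Work.MP_69fea5_lc.TW.Stmts
import Pool.Agent.Work.MP_69fea5_lc.PD.I_DYN

/-!
# Dynamics of the block TW: limits along ultrafilters
-/

set_option autoImplicit false

namespace Pool.Agent.Work.MP_69fea5_lc.TW

open Filter Topology
open PD (lm lm_spec lm_spec_lt lm_add lm_eq_iff continuous_lm lm_mem lm_pure_one)

attribute [local instance] Ultrafilter.add Ultrafilter.addSemigroup

variable {k : ℕ}

theorem close_mono {R : Set ((ℕ → Fin k) × (ℕ → Fin k))} {m m' : ℕ} (h : m ≤ m')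
    {a b : ℕ → Fin k} (hc : Close R m' a b) : Close R m a b := by
  obtain ⟨p, hp, h1, h2⟩ := hc
  exact ⟨p, hp, fun i hi => h1 i (hi.trans_le h), fun i hi => h2 i (hi.trans_le h)⟩

theorem close_of_mem {R : Set ((ℕ → Fin k) × (ℕ → Fin k))} {m : ℕ} {a b : ℕ → Fin k}
    (h : (a, b) ∈ R) : Close R m a b := ⟨(a, b), h, fun _ _ => rfl, fun _ _ => rfl⟩

theorem close_congr {R : Set ((ℕ → Fin k) × (ℕ → Fin k))} {m : ℕ} {a b a' b' : ℕ → Fin k}
    (h : Close R m a b) (ha : ∀ i < m, a i = a' i) (hb : ∀ i < m, b i = b' i) :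
    Close R m a' b' := by
  obtain ⟨p, hp, h1, h2⟩ := h
  exact ⟨p, hp, fun i hi => (h1 i hi).trans (ha i hi), fun i hi => (h2 i hi).trans (hb i hi)⟩

theorem close_symm {M : Set (ℕ → Fin k)} {R : Set ((ℕ → Fin k) × (ℕ → Fin k))} (hR : ICER M R)
    {m : ℕ} {a b : ℕ → Fin k} (h : Close R m a b) : Close R m b a := by
  obtain ⟨p, hp, h1, h2⟩ := h
  exact ⟨(p.2, p.1), hR.symm _ _ hp, h2, h1⟩

theorem mem_of_close {R : Set ((ℕ → Fin k) × (ℕ → Fin k))} (hR : IsClosed R) {a b : ℕ → Fin k}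
    (h : ∀ m, Close R m a b) : (a, b) ∈ R := by
  choose p hp h1 h2 using h
  refine hR.mem_of_tendsto (f := p) (b := atTop) ?_ (Eventually.of_forall hp)
  refine Tendsto.prodMk_nhds (f := atTop) (x := a) (y := b) ?_ ?_
  · rw [tendsto_pi_nhds]
    intro i
    refine tendsto_const_nhds.congr' ?_
    filter_upwards [eventually_gt_atTop i] with n hn
    exact (h1 n i hn).symm
  · rw [tendsto_pi_nhds]
    intro i
    refine tendsto_const_nhds.congr' ?_
    filter_upwards [eventually_gt_atTop i] with n hn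
    exact (h2 n i hn).symm

theorem sh_sh (x t : ℕ) (z : ℕ → Fin k) : sh t (sh x z) = sh (x + t) z := by
  funext i
  show z (x + (t + i)) = z (x + t + i)
  rw [add_assoc]

theorem sh_zero (z : ℕ → Fin k) : sh 0 z = z := by
  funext i
  show z (0 + i) = z i
  rw [zero_add]

theorem ICER.sh {M : Set (ℕ → Fin k)} {R : Set ((ℕ → Fin k) × (ℕ → Fin k))} (hR : ICER M R)
    {a b : ℕ → Fin k} (h : (a, b) ∈ R) (x : ℕ) : (TW.sh x a, TW.sh x b) ∈ R := by
  induction x with
  | zero => simpa [sh_zero] using h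
  | succ x ih =>
    have := hR.shift _ _ ih
    have e : ∀ z : ℕ → Fin k, (fun n => TW.sh x z (n + 1)) = TW.sh (x + 1) z := by
      intro z
      funext n
      show z (x + (n + 1)) = z (x + 1 + n)
      congr 1
      omega
    rwa [e, e] at this

theorem lm_close {R : Set ((ℕ → Fin k) × (ℕ → Fin k))} (hR : IsClosed R) (p : Ultrafilter ℕ)
    {a b : ℕ → Fin k} (h : ∀ m, ∀ᶠ x in (p : Filter ℕ), Close R m (sh x a) (sh x b)) :
    (lm p a, lm p b) ∈ R := by
  refine mem_of_close hR fun m => ?_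
  obtain ⟨x, hx⟩ := ((h m).and ((lm_spec_lt p a m).and (lm_spec_lt p b m))).exists
  exact close_congr hx.1 hx.2.1 hx.2.2

theorem close_lm {R : Set ((ℕ → Fin k) × (ℕ → Fin k))} {p : Ultrafilter ℕ} {a b : ℕ → Fin k}
    (h : (lm p a, lm p b) ∈ R) (m : ℕ) : ∀ᶠ x in (p : Filter ℕ), Close R m (sh x a) (sh x b) := by
  filter_upwards [lm_spec_lt p a m, lm_spec_lt p b m] with x h1 h2
  exact ⟨_, h, fun i hi => (h1 i hi).symm, fun i hi => (h2 i hi).symm⟩

theorem ICER.lm {M : Set (ℕ → Fin k)} {R : Set ((ℕ → Fin k) × (ℕ → Fin k))} (hR : ICER M R)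
    {a b : ℕ → Fin k} (h : (a, b) ∈ R) (p : Ultrafilter ℕ) : (PD.lm p a, PD.lm p b) ∈ R :=
  lm_close hR.closed p fun _ => Eventually.of_forall fun x => close_of_mem (hR.sh h x)

/-- late ultrafilters -/
def Late (p : Ultrafilter ℕ) : Prop := ∀ N, ∀ᶠ x in (p : Filter ℕ), N ≤ x

theorem Late.add (p : Ultrafilter ℕ) {q : Ultrafilter ℕ} (hq : Late q) : Late (p + q) := by
  intro N
  refine (Ultrafilter.eventually_add p q _).2 (Eventually.of_forall fun m => ?_)
  filter_upwards [hq N] with x hx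
  exact le_trans hx (Nat.le_add_left _ _)

theorem isClosed_late : IsClosed {p : Ultrafilter ℕ | Late p} := by
  have : {p : Ultrafilter ℕ | Late p} = ⋂ N : ℕ, {p : Ultrafilter ℕ | {x | N ≤ x} ∈ p} := by
    ext p
    simp [Late, Filter.Eventually]
  rw [this]
  exact isClosed_iInter fun n => ultrafilter_isClosed_basic _

theorem exists_ultra {G : ℕ → Set ℕ} (hG : Antitone G) (hn : ∀ n, (G n).Nonempty) :
    ∃ q : Ultrafilter ℕ, ∀ n, G n ∈ q := by
  have hne : (⨅ n, 𝓟 (G n)).NeBot := by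
    refine iInf_neBot_of_directed' ?_ fun n => principal_neBot_iff.2 (hn n)
    intro a b
    exact ⟨max a b, principal_mono.2 (hG (le_max_left _ _)),
      principal_mono.2 (hG (le_max_right _ _))⟩
  exact ⟨Ultrafilter.of (⨅ n, 𝓟 (G n)), fun n =>
    Ultrafilter.of_le _ (mem_iInf_of_mem n (mem_principal_self _))⟩

theorem right_iff {R : Set ((ℕ → Fin k) × (ℕ → Fin k))} (hR : IsClosed R) {c y : ℕ → Fin k} :
    Right R c y ↔ ∃ q : Ultrafilter ℕ, Late q ∧ (lm q y, lm q c) ∈ R := by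
  constructor
  · intro h
    obtain ⟨q, hq⟩ := exists_ultra (G := fun n => {x | n ≤ x ∧ Close R n (sh x y) (sh x c)})
      (fun a b hab x hx => ⟨hab.trans hx.1, close_mono hab hx.2⟩) (fun n => h n n)
    refine ⟨q, fun N => ?_, lm_close hR q fun m => ?_⟩
    · exact mem_of_superset (hq N) fun x hx => hx.1
    · exact mem_of_superset (hq m) fun x hx => hx.2
  · rintro ⟨q, hq, h⟩ m N
    obtain ⟨x, hx⟩ := ((hq N).and (close_lm h m)).exists
    exact ⟨x, hx.1, hx.2⟩

theorem proxMod_iff {R : Set ((ℕ → Fin k) × (ℕ → Fin k))} (hR : IsClosed R) {a b : ℕ → Fin k} :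
    ProxMod R a b ↔ ∃ p : Ultrafilter ℕ, (lm p a, lm p b) ∈ R := by
  constructor
  · intro h
    obtain ⟨q, hq⟩ := exists_ultra (G := fun n => {x | Close R n (sh x a) (sh x b)})
      (fun a b hab x hx => close_mono hab hx) h
    exact ⟨q, lm_close hR q hq⟩
  · rintro ⟨p, h⟩ m
    exact (close_lm h m).exists

/-- proximal pairs meet arbitrarily late -/
theorem proxMod_late {M : Set (ℕ → Fin k)} {R : Set ((ℕ → Fin k) × (ℕ → Fin k))} (hR : ICER M R)
    {a b : ℕ → Fin k} (h : ProxMod R a b) : ∃ p : Ultrafilter ℕ, Late p ∧ (lm p a, lm p b) ∈ R := by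
  refine (right_iff hR.closed (c := b) (y := a)).1 fun m N => ?_
  obtain ⟨x, q, hq, h1, h2⟩ := h (N + m)
  refine ⟨x + N, Nat.le_add_left _ _, (sh N q.1, sh N q.2), hR.sh hq N, fun i hi => ?_,
    fun i hi => ?_⟩
  · show q.1 (N + i) = a (x + N + i)
    rw [h1 (N + i) (by omega), add_assoc]
    rfl
  · show q.2 (N + i) = b (x + N + i)
    rw [h2 (N + i) (by omega), add_assoc]
    rfl

theorem exists_lm_eq {M : Set (ℕ → Fin k)} (hM : MinimalSubshift M) {w y : ℕ → Fin k}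
    (hw : w ∈ M) (hy : y ∈ M) : ∃ r : Ultrafilter ℕ, lm r w = y := by
  have h : Set.range (fun p : Ultrafilter ℕ => lm p w) = M := by
    refine hM.minimal _ ?_ (Set.range_nonempty _)
      (isCompact_range (continuous_lm w)).isClosed ?_
    · rintro _ ⟨p, rfl⟩
      exact lm_mem hM.closed hM.shift p hw
    · rintro _ ⟨p, rfl⟩
      refine ⟨pure 1 + p, ?_⟩
      simp only
      rw [lm_add, lm_pure_one]
  have h' : y ∈ Set.range (fun p : Ultrafilter ℕ => lm p w) := by
    rw [h]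
    exact hy
  exact h'

/-- no dead ends -/
theorem exists_idem_right {M : Set (ℕ → Fin k)} (hM : MinimalSubshift M)
    {R : Set ((ℕ → Fin k) × (ℕ → Fin k))} (hR : ICER M R) {c y : ℕ → Fin k} (hy : y ∈ M)
    (h : Right R c y) : ∃ u : Ultrafilter ℕ, u + u = u ∧ Late u ∧ lm u y = y ∧
      (y, lm u c) ∈ R := by
  obtain ⟨q, hq, hqR⟩ := (right_iff hR.closed).1 h
  obtain ⟨r, hr⟩ := exists_lm_eq hM (lm_mem hM.closed hM.shift q hy) hy
  let S : Set (Ultrafilter ℕ) := {p | Late p} ∩ ({p | lm p y = y} ∩ {p | (y, lm p c) ∈ R})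
  have hS : IsClosed S := isClosed_late.inter
    ((isClosed_eq (continuous_lm y) continuous_const).inter
      (hR.closed.preimage (continuous_const.prodMk (continuous_lm c))))
  obtain ⟨u, hu, huu⟩ := exists_idempotent_in_compact_add_subsemigroup
    (fun r : Ultrafilter ℕ => Ultrafilter.continuous_add_left r) S
    ⟨r + q, Late.add r hq, by
      refine ⟨?_, ?_⟩
      · show lm (r + q) y = y
        rw [lm_add, hr]
      · show (y, lm (r + q) c) ∈ R
        rw [lm_add]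
        have := hR.lm hqR r
        rwa [hr] at this⟩ hS.isCompact (by
      rintro p ⟨_, h2, h3⟩ q ⟨h4, h5, h6⟩
      refine ⟨Late.add p h4, ?_, ?_⟩
      · show lm (p + q) y = y
        have h2' : lm p y = y := h2
        have h5' : lm q y = y := h5
        rw [lm_add, h5', h2']
      · show (y, lm (p + q) c) ∈ R
        have h2' : lm p y = y := h2
        have := hR.lm (show (y, lm q c) ∈ R from h6) p
        rw [h2'] at this
        rw [lm_add]
        exact this)
  exact ⟨u, huu, hu.1, hu.2.1, hu.2.2⟩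

theorem I_D1 : StD1 := by
  intro k M hM R hR c y hy h
  obtain ⟨u, huu, hl, hy', hc⟩ := exists_idem_right hM hR hy h
  refine ⟨lm u c, hc, fun R' hR' => (right_iff hR'.closed).2 ⟨u, hl, ?_⟩⟩
  have e : lm u (lm u c) = lm u c := by rw [← lm_add, huu]
  rw [e]
  exact hR'.refl _ (hR.sub _ _ hc).2

theorem I_D2 : StD2 := by
  intro k M hM R R' hR hR' hs c y h
  obtain ⟨q, hq, hqR⟩ := (right_iff hR.closed).1 h
  obtain ⟨p, hp⟩ := (proxMod_iff hR'.closed).1 (hs _ _ hqR)
  refine (right_iff hR'.closed).2 ⟨p + q, Late.add p hq, ?_⟩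
  rw [lm_add, lm_add]
  exact hp

theorem I_D3 : StD3 := by
  intro k M R hR c y z hyz h
  obtain ⟨q, hq, hqR⟩ := (right_iff hR.closed).1 h
  exact (right_iff hR.closed).2 ⟨q, hq, hR.trans _ _ _ (hR.symm _ _ (hR.lm hyz q)) hqR⟩

theorem I_D4 : StD4 := by
  intro k M hM R R' hR hR' hRR hd c y hy h
  obtain ⟨u, huu, hl, hy', hc⟩ := exists_idem_right hM hR hy h
  refine ⟨lm u c, hc, fun z hz m N => ?_⟩
  have hyz : (y, z) ∈ R := hz
  have hyz' : (y, lm u z) ∈ R := by
    have := hR.lm hyz u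
    rwa [hy'] at this
  have hzz : (z, lm u z) ∈ R := hR.trans _ _ _ (hR.symm _ _ hyz) hyz'
  have hzm : lm u z ∈ M := (hR.sub _ _ hzz).2
  have hp : ProxMod R' z (lm u z) := by
    refine (proxMod_iff hR'.closed).2 ⟨u, ?_⟩
    rw [← lm_add, huu]
    exact hR'.refl _ hzm
  have hz' : (z, lm u z) ∈ R' := hd _ _ hzz hp
  obtain ⟨x, hx⟩ := ((hl N).and ((lm_spec_lt u c m).and (lm_spec_lt u z m))).exists
  refine ⟨x, hx.1, ⟨(lm u c, lm u c), hR'.refl _ (hR.sub _ _ hc).2,
    fun i hi => (hx.2.1 i hi).symm, fun i _ => rfl⟩, ⟨(lm u z, z), hR'.symm _ _ hz',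
    fun i hi => (hx.2.2 i hi).symm, fun i _ => rfl⟩⟩

theorem I_D5 : StD5 := by
  intro k M hM R hR c y hy hyc hd
  refine ⟨hy, fun z hz m N => ?_⟩
  obtain ⟨p0, hp0, hp0R⟩ := proxMod_late hR hyc
  let L : Set (Ultrafilter ℕ) := {p | Late p} ∩ {p | (lm p y, lm p c) ∈ R}
  have hLc : IsClosed L := isClosed_late.inter
    (hR.closed.preimage ((continuous_lm y).prodMk (continuous_lm c)))
  have hLl : ∀ q : Ultrafilter ℕ, ∀ p ∈ L, q + p ∈ L := by
    rintro q p ⟨h1, h2⟩
    refine ⟨Late.add q h1, ?_⟩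
    show (lm (q + p) y, lm (q + p) c) ∈ R
    rw [lm_add, lm_add]
    exact hR.lm h2 q
  have hLz : (fun p : Ultrafilter ℕ => lm p z) '' L = M := by
    refine hM.minimal _ ?_ ⟨_, p0, ⟨hp0, hp0R⟩, rfl⟩
      (hLc.isCompact.image (continuous_lm z)).isClosed ?_
    · rintro _ ⟨p, _, rfl⟩
      exact lm_mem hM.closed hM.shift p hz
    · rintro _ ⟨p, hp, rfl⟩
      refine ⟨pure 1 + p, hLl _ p hp, ?_⟩
      simp only
      rw [lm_add, lm_pure_one]
  obtain ⟨p1, hp1, hp1z⟩ : z ∈ (fun p : Ultrafilter ℕ => lm p z) '' L := hLz ▸ hz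
  let S : Set (Ultrafilter ℕ) := L ∩ {p | lm p z = z}
  have hSc : IsClosed S := hLc.inter (isClosed_eq (continuous_lm z) continuous_const)
  obtain ⟨u, hu, huu⟩ := exists_idempotent_in_compact_add_subsemigroup
    (fun r : Ultrafilter ℕ => Ultrafilter.continuous_add_left r) S ⟨p1, hp1, hp1z⟩
    hSc.isCompact (by
      rintro p ⟨_, h2⟩ q ⟨h3, h4⟩
      refine ⟨hLl p q h3, ?_⟩
      have h2' : lm p z = z := h2
      have h4' : lm q z = z := h4
      show lm (p + q) z = z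
      rw [lm_add, h4', h2'])
  have huz : lm u z = z := hu.2
  have huc : (lm u y, lm u c) ∈ R := hu.1.2
  have huy : (y, lm u y) ∈ R := by
    refine hd _ (lm_mem hM.closed hM.shift u hy) ((proxMod_iff hR.closed).2 ⟨u, ?_⟩)
    rw [← lm_add, huu]
    exact hR.refl _ (lm_mem hM.closed hM.shift u hy)
  have hyc' : (lm u c, y) ∈ R := hR.symm _ _ (hR.trans _ _ _ huy huc)
  obtain ⟨x, hx⟩ := ((hu.1.1 N).and ((lm_spec_lt u c m).and (lm_spec_lt u z m))).exists
  refine ⟨x, hx.1, ⟨_, hyc', fun i hi => (hx.2.1 i hi).symm, fun i _ => rfl⟩,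
    ⟨(z, z), hR.refl _ hz, fun i hi => ?_, fun i _ => rfl⟩⟩
  have := hx.2.2 i hi
  rw [huz] at this
  exact this.symm

end Pool.Agent.Work.MP_69fea5_lc.TW
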