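import Pool.Agent.Work.MP_69fea5_lc.TW.Dyn

/-!
# Dynamics of the block TW: compactness, returns, finite steps, limits of towers
-/

set_option autoImplicit false

namespace Pool.Agent.Work.MP_69fea5_lc.TW

open Filter Topology

variable {k : ℕ}

theorem exists_ul (U : Ultrafilter ℕ) (P : ℕ → ℕ → Fin k) (i : ℕ) :
    ∃ a, ∀ᶠ l in (U : Filter ℕ), P l i = a := by
  by_contra hc
  push Not at hc
  obtain ⟨x, hx⟩ := (eventually_all.2 hc).exists
  exact hx _ rfl

/-- the limit of a sequence of points along an ultrafilter -/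
noncomputable def ul (U : Ultrafilter ℕ) (P : ℕ → ℕ → Fin k) (i : ℕ) : Fin k :=
  (exists_ul U P i).choose

theorem ul_spec (U : Ultrafilter ℕ) (P : ℕ → ℕ → Fin k) (i : ℕ) :
    ∀ᶠ l in (U : Filter ℕ), P l i = ul U P i := (exists_ul U P i).choose_spec

theorem ul_spec_lt (U : Ultrafilter ℕ) (P : ℕ → ℕ → Fin k) (m : ℕ) :
    ∀ᶠ l in (U : Filter ℕ), ∀ i < m, P l i = ul U P i :=
  (eventually_all_finset (Finset.range m)).2 (fun i _ => ul_spec U P i) |>.mono
    fun _ hx i hi => hx i (Finset.mem_range.2 hi)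

theorem hyper_ge (m : ℕ) : ∀ᶠ l in (hyperfilter ℕ : Filter ℕ), m ≤ l := by
  have h : ∀ᶠ l in (cofinite : Filter ℕ), m ≤ l := by
    rw [Nat.cofinite_eq_atTop]
    exact eventually_ge_atTop m
  exact hyperfilter_le_cofinite h

/-- limits of pairs in a closed relation -/
theorem ul_mem {R : Set ((ℕ → Fin k) × (ℕ → Fin k))} (hR : IsClosed R) (U : Ultrafilter ℕ)
    {P Q : ℕ → ℕ → Fin k} (h : ∀ m, ∀ᶠ l in (U : Filter ℕ), Close R m (P l) (Q l)) :
    (ul U P, ul U Q) ∈ R := by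
  refine mem_of_close hR fun m => ?_
  obtain ⟨l, hl⟩ := ((h m).and ((ul_spec_lt U P m).and (ul_spec_lt U Q m))).exists
  exact close_congr hl.1 hl.2.1 hl.2.2

/-- approximate transitivity -/
theorem close_trans {M : Set (ℕ → Fin k)} {R : Set ((ℕ → Fin k) × (ℕ → Fin k))} (hR : ICER M R)
    (m : ℕ) : ∃ l, ∀ a b d : ℕ → Fin k, Close R l a b → Close R l b d → Close R m a d := by
  by_contra hc
  push Not at hc
  choose a b d h1 h2 h3 using hc
  have hA : (ul (hyperfilter ℕ) a, ul (hyperfilter ℕ) b) ∈ R := ul_mem hR.closed _ fun m' =>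
    (hyper_ge m').mono fun l hl => close_mono hl (h1 l)
  have hB : (ul (hyperfilter ℕ) b, ul (hyperfilter ℕ) d) ∈ R := ul_mem hR.closed _ fun m' =>
    (hyper_ge m').mono fun l hl => close_mono hl (h2 l)
  obtain ⟨l, hl⟩ := ((ul_spec_lt (hyperfilter ℕ) a m).and
    (ul_spec_lt (hyperfilter ℕ) d m)).exists
  exact h3 l (close_congr (close_of_mem (hR.trans _ _ _ hA hB)) (fun i hi => (hl.1 i hi).symm)
    fun i hi => (hl.2 i hi).symm)

theorem I_D6 : StD6 := by
  intro k M R hR c K hK hsat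
  refine ⟨fun y hy m N => ?_, fun y hy z hyz => ⟨hsat y hy.1 z hyz, fun z' hz' m N => ?_⟩⟩
  · obtain ⟨l, hl⟩ := close_trans hR m
    obtain ⟨x, hx, h1, h2⟩ := hy.2 y hy.1 l N
    exact ⟨x, hx, hl _ _ _ h2 (close_symm hR h1)⟩
  · obtain ⟨l, hl⟩ := close_trans hR m
    obtain ⟨x, hx, h1, h2⟩ := hy.2 z' hz' (max l m) N
    exact ⟨x, hx, hl _ _ _ (close_mono (le_max_left _ _) h1) (close_of_mem hyz),
      close_mono (le_max_right _ _) h2⟩

theorem Bad.mono {R : Set ((ℕ → Fin k) × (ℕ → Fin k))} {c y : ℕ → Fin k} {m m' N N' : ℕ}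
    (hm : m ≤ m') (hN : N ≤ N') (h : Bad R c m N y) : Bad R c m' N' y :=
  fun x hx hc => h x (hN.trans hx) (close_mono hm hc)

theorem Sep.mono {R : Set ((ℕ → Fin k) × (ℕ → Fin k))} {a b : ℕ → Fin k} {s s' : ℕ}
    (hs : s ≤ s') (h : Sep R s a b) : Sep R s' a b := fun x hc => h x (close_mono hs hc)

theorem not_mem_of_sep {R : Set ((ℕ → Fin k) × (ℕ → Fin k))} {a b : ℕ → Fin k} {s : ℕ}
    (h : Sep R s a b) : (a, b) ∉ R := by
  intro hab
  refine h 0 ?_
  rw [sh_zero, sh_zero]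
  exact close_of_mem hab

theorem exists_sep {R R' : Set ((ℕ → Fin k) × (ℕ → Fin k))} (hd : DistStep R R')
    {a b : ℕ → Fin k} (h : (a, b) ∈ R) (h' : (a, b) ∉ R') : ∃ s, Sep R' s a b := by
  have : ¬ ProxMod R' a b := fun hp => h' (hd _ _ h hp)
  unfold ProxMod at this
  push Not at this
  exact this

theorem exists_bound {P : ℕ → ℕ → Prop} (hP : ∀ a s s', s ≤ s' → P a s → P a s') (n : ℕ)
    (h : ∀ a < n, ∃ s, P a s) : ∃ s, ∀ a < n, P a s := by
  induction n with
  | zero => exact ⟨0, fun a ha => absurd ha (Nat.not_lt_zero _)⟩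
  | succ n ih =>
    obtain ⟨s, hs⟩ := ih fun a ha => h a (ha.trans (Nat.lt_succ_self n))
    obtain ⟨t, ht⟩ := h n (Nat.lt_succ_self n)
    refine ⟨max s t, fun a ha => ?_⟩
    rcases Nat.lt_succ_iff_lt_or_eq.1 ha with ha | rfl
    · exact hP _ _ _ (le_max_left _ _) (hs a ha)
    · exact hP _ _ _ (le_max_right _ _) ht

theorem I_D7 : StD7 := by
  intro k M hM R R' hR hR' hRR hd c E hE hsat hr q hq y hy
  obtain ⟨hyE, z, hzy, f, hf⟩ := hy
  by_contra hc
  -- `y` is bad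
  have hyb : ∃ m N, Bad R' c m N y := by
    unfold Right at hc
    push Not at hc
    exact hc
  obtain ⟨m', N', hyb⟩ := hyb
  obtain ⟨z', hyz', hz'⟩ := I_D1 k M hM R hR c y (hE hyE) (hr y hyE)
  have hz'r : Right R' c z' := hz' R' hR'
  have hzyR : (z, y) ∈ R := hRR hzy
  let g : ℕ → (ℕ → Fin k) := fun a => if a < q.1 then f a else y
  have hg1 : ∀ a, a < q.1 → g a = f a := fun a ha => if_pos ha
  have hg2 : g q.1 = y := if_neg (lt_irrefl _)
  -- all points are in one class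
  have hgR : ∀ a < q.1 + 1, (y, g a) ∈ R := by
    intro a ha
    rcases Nat.lt_succ_iff_lt_or_eq.1 ha with ha | rfl
    · rw [hg1 a ha]
      exact hR.trans _ _ _ (hR.symm _ _ hzyR) (hf a ha).1
    · rw [hg2]
      exact hR.refl _ (hE hyE)
  have hbad : ∀ a < q.1 + 1, Bad R' c (max q.2.1 m') (max q.2.2.1 N') (g a) := by
    intro a ha
    rcases Nat.lt_succ_iff_lt_or_eq.1 ha with ha | rfl
    · rw [hg1 a ha]
      exact (hf a ha).2.1.mono (le_max_left _ _) (le_max_left _ _)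
    · rw [hg2]
      exact hyb.mono (le_max_right _ _) (le_max_right _ _)
  -- separation from `z'`
  have h1 : ∃ s, ∀ a < q.1 + 1, Sep R' s z' (g a) := by
    refine exists_bound (fun a s s' hs h => h.mono hs) _ fun a ha => ?_
    refine exists_sep hd (hR.trans _ _ _ (hR.symm _ _ hyz') (hgR a ha)) fun hza => ?_
    obtain ⟨x, hx, hcl⟩ := I_D3 k M R' hR' c z' (g a) hza hz'r (max q.2.1 m') (max q.2.2.1 N')
    exact hbad a ha x hx hcl
  -- separation from `y`
  have h2 : ∃ s, ∀ a < q.1, Sep R' s y (f a) ∧ Sep R' s (f a) y := by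
    refine exists_bound (fun a s s' hs h => ⟨h.1.mono hs, h.2.mono hs⟩) _ fun a ha => ?_
    have hya : (y, f a) ∈ R := by
      have := hgR a (ha.trans (Nat.lt_succ_self _))
      rwa [hg1 a ha] at this
    have hn : (y, f a) ∉ R' := fun h =>
      not_mem_of_sep (hf a ha).2.2.1 (hR'.trans _ _ _ hzy h)
    obtain ⟨s, hs⟩ := exists_sep hd hya hn
    obtain ⟨t, ht⟩ := exists_sep hd (hR.symm _ _ hya) fun h => hn (hR'.symm _ _ h)
    exact ⟨max s t, hs.mono (le_max_left _ _), ht.mono (le_max_right _ _)⟩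
  obtain ⟨s1, h1⟩ := h1
  obtain ⟨s2, h2⟩ := h2
  refine hq (q.1 + 1, max q.2.1 m', max q.2.2.1 N', max q.2.2.2 (max s1 s2))
    (Nat.lt_succ_self _) ⟨z', hsat y hyE z' hyz', z', hR'.refl _ (hR.sub _ _ hyz').2, g,
    fun a ha => ⟨hR.trans _ _ _ (hR.symm _ _ hyz') (hgR a ha), hbad a ha,
      (h1 a ha).mono (le_trans (le_max_left _ _) (le_max_right _ _)), fun b hb hba => ?_⟩⟩
  rcases Nat.lt_succ_iff_lt_or_eq.1 ha with ha | rfl
  · rcases Nat.lt_succ_iff_lt_or_eq.1 hb with hb | rfl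
    · rw [hg1 a ha, hg1 b hb]
      exact ((hf a ha).2.2.2 b hb hba).mono (le_max_left _ _)
    · rw [hg1 a ha, hg2]
      exact (h2 a ha).1.mono (le_trans (le_max_right _ _) (le_max_right _ _))
  · rcases Nat.lt_succ_iff_lt_or_eq.1 hb with hb | rfl
    · rw [hg1 b hb, hg2]
      exact (h2 b hb).2.mono (le_trans (le_max_right _ _) (le_max_right _ _))
    · exact absurd rfl hba

theorem I_D8 : StD8 := by
  intro k M R R' hR hR' hRR hf c
  obtain ⟨p, hp⟩ := hf
  refine ⟨p, fun q hq => Set.eq_empty_of_forall_notMem fun y hy => ?_⟩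
  obtain ⟨z, hzy, f, hf⟩ := hy
  let g : ℕ → (ℕ → Fin k) := fun a => match a with
    | 0 => z
    | a + 1 => f a
  obtain ⟨i, hi, j, hj, hij⟩ := hp g (by
    intro i hi
    cases i with
    | zero => exact hR.refl _ (hR'.sub _ _ hzy).1
    | succ i => exact (hf i (by omega)).1)
  cases i with
  | zero => exact absurd hj (Nat.not_lt_zero _)
  | succ i =>
    cases j with
    | zero => exact not_mem_of_sep (hf i (by omega)).2.2.1 hij
    | succ j => exact not_mem_of_sep ((hf i (by omega)).2.2.2 j (by omega) (by omega)) hij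

theorem I_D9 : StD9 := by
  intro k M R hR hRR c y hy m N
  have hanti : Antitone R := antitone_nat_of_succ_le hRR
  have key : ∃ n, ∀ a b, (a, b) ∈ R n → Close (⋂ n, R n) m a b := by
    by_contra hc
    push Not at hc
    choose a b h1 h2 using hc
    have hA : (ul (hyperfilter ℕ) a, ul (hyperfilter ℕ) b) ∈ ⋂ n, R n := by
      refine Set.mem_iInter.2 fun n => ul_mem (hR n).closed _ fun m' => ?_
      exact (hyper_ge n).mono fun l hl => close_of_mem (hanti hl (h1 l))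
    obtain ⟨l, hl⟩ := ((ul_spec_lt (hyperfilter ℕ) a m).and
      (ul_spec_lt (hyperfilter ℕ) b m)).exists
    exact h2 l (close_congr (close_of_mem hA) (fun i hi => (hl.1 i hi).symm)
      fun i hi => (hl.2 i hi).symm)
  obtain ⟨n, hn⟩ := key
  obtain ⟨x, hx, p, hp, h1, h2⟩ := hy n m N
  exact ⟨x, hx, close_congr (hn _ _ hp) h1 h2⟩

end Pool.Agent.Work.MP_69fea5_lc.TW
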