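import Pool.Agent.Work.MP_69fea5_lc.TW.Stmts

/-!
# Item C1: a point of a coded closed set
-/

set_option autoImplicit false

namespace Pool.Agent.Work.MP_69fea5_lc.TW

open HK Filter Topology

namespace XC1

variable {k : ℕ}

theorem least {E : Set (ℕ → Fin k)} (l : List (Fin k)) (h : ∃ a, pre E (l ++ [a])) :
    ∃ a, pre E (l ++ [a]) ∧ ∀ b < a, ¬ pre E (l ++ [b]) := by
  obtain ⟨a, ha, hm⟩ := WellFounded.has_min (wellFounded_lt (α := Fin k))
    {a | pre E (l ++ [a])} h
  exact ⟨a, ha, fun b hb hb' => hm b hb' hb⟩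

open Classical in
/-- the next value -/
noncomputable def nxt (E : Set (ℕ → Fin k)) (a0 : Fin k) (l : List (Fin k)) : Fin k :=
  if h : ∃ a, pre E (l ++ [a]) then Classical.choose (least l h) else a0

theorem nxt_spec (E : Set (ℕ → Fin k)) (a0 : Fin k) (l : List (Fin k))
    (h : ∃ a, pre E (l ++ [a])) :
    pre E (l ++ [nxt E a0 l]) ∧ ∀ b < nxt E a0 l, ¬ pre E (l ++ [b]) := by
  unfold nxt
  rw [dif_pos h]
  exact Classical.choose_spec (least l h)

theorem nxt_eq (E : Set (ℕ → Fin k)) (a0 : Fin k) (l : List (Fin k)) (a : Fin k) :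
    nxt E a0 l = a ↔ (pre E (l ++ [a]) ∧ ∀ b : Fin k, b < a → ¬ pre E (l ++ [b])) ∨
      ((∀ b : Fin k, ¬ pre E (l ++ [b])) ∧ a0 = a) := by
  by_cases h : ∃ a, pre E (l ++ [a])
  · have hs := nxt_spec E a0 l h
    constructor
    · rintro rfl
      exact Or.inl hs
    · rintro (⟨h1, h2⟩ | ⟨h1, -⟩)
      · rcases lt_trichotomy (nxt E a0 l) a with h3 | h3 | h3
        · exact absurd hs.1 (h2 _ h3)
        · exact h3
        · exact absurd h1 (hs.2 _ h3)
      · obtain ⟨b, hb⟩ := h
        exact absurd hb (h1 b)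
  · have h' : ∀ b, ¬ pre E (l ++ [b]) := fun b hb => h ⟨b, hb⟩
    have e : nxt E a0 l = a0 := by
      unfold nxt
      rw [dif_neg h]
    rw [e]
    constructor
    · intro h1
      exact Or.inr ⟨h', h1⟩
    · rintro (⟨h1, -⟩ | ⟨-, h1⟩)
      · exact absurd h1 (h' _)
      · exact h1

/-- the list of the first values -/
noncomputable def vals (E : Set (ℕ → Fin k)) (a0 : Fin k) : ℕ → List (Fin k)
  | 0 => []
  | n + 1 => vals E a0 n ++ [nxt E a0 (vals E a0 n)]

/-- the point -/
noncomputable def pt (E : Set (ℕ → Fin k)) (a0 : Fin k) (n : ℕ) : Fin k :=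
  nxt E a0 (vals E a0 n)

theorem vals_eq (E : Set (ℕ → Fin k)) (a0 : Fin k) (n : ℕ) :
    vals E a0 n = (List.range n).map (pt E a0) := by
  induction n with
  | zero => simp [vals]
  | succ n ih =>
    rw [List.range_succ, List.map_append, ← ih]
    simp [vals, pt]

theorem pre_vals (E : Set (ℕ → Fin k)) (a0 : Fin k) (hne : E.Nonempty) (n : ℕ) :
    pre E (vals E a0 n) := by
  induction n with
  | zero =>
    obtain ⟨z, hz⟩ := hne
    exact ⟨z, hz, fun i h => by simp [vals] at h⟩
  | succ n ih =>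
    obtain ⟨z, hz, hzi⟩ := ih
    refine (nxt_spec E a0 (vals E a0 n) ⟨z (vals E a0 n).length, z, hz, ?_⟩).1
    intro i h
    by_cases hi : i < (vals E a0 n).length
    · rw [List.getElem_append_left hi]
      exact hzi i hi
    · have e : i = (vals E a0 n).length := by
        simp at h
        omega
      subst e
      simp

end XC1

theorem I_C1 : StC1 := by
  intro k S hS E hE hne hpre
  obtain ⟨z0, hz0⟩ := hne
  refine ⟨XC1.pt E (z0 0), ?_, ?_⟩
  · have hp : ∀ n, ∃ z ∈ E, ∀ i < n, z i = XC1.pt E (z0 0) i := by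
      intro n
      obtain ⟨z, hz, hzi⟩ := XC1.pre_vals E (z0 0) ⟨z0, hz0⟩ n
      refine ⟨z, hz, fun i hi => ?_⟩
      have hl : i < (XC1.vals E (z0 0) n).length := by
        rw [XC1.vals_eq]
        simpa using hi
      rw [hzi i hl]
      simp [XC1.vals_eq]
    choose z hz hzi using hp
    have hcl : XC1.pt E (z0 0) ∈ closure E := by
      refine mem_closure_of_tendsto (f := z) (b := atTop) ?_ (Eventually.of_forall hz)
      rw [tendsto_pi_nhds]
      intro i
      refine tendsto_const_nhds.congr' ?_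
      filter_upwards [eventually_gt_atTop i] with n hn
      exact (hzi n i hn).symm
    rwa [hE.closure_eq] at hcl
  · have hG : ArF S fun p : Unit × List (Fin k) => XC1.nxt E (z0 0) p.2 := by
      refine ArF.of_exists (R := fun (p : Unit × List (Fin k)) (a : Fin k) =>
        (pre E (p.2 ++ [a]) ∧ ∀ b : Fin k, b < a → ¬ pre E (p.2 ++ [b])) ∨
        ((∀ b : Fin k, ¬ pre E (p.2 ++ [b])) ∧ z0 0 = a)) ?_ fun p a => XC1.nxt_eq E (z0 0) p.2 a
      refine Ar.or hS (Ar.and hS ?_ ?_) (Ar.and hS ?_ ?_)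
      · refine hpre.comp hS (f := fun p : (Unit × List (Fin k)) × Fin k => p.1.2 ++ [p.2]) ?_
        exact Primrec.list_append.comp (Primrec.snd.comp Primrec.fst)
          (Primrec.list_cons.comp Primrec.snd (Primrec.const []))
      · refine Ar.all hS (R := fun (p : (Unit × List (Fin k)) × Fin k) (b : Fin k) =>
          b < p.2 → ¬ pre E (p.1.2 ++ [b])) ?_
        refine Ar.imp hS ?_ (Ar.not hS ?_)
        · refine Ar.congr (R := fun q : ((Unit × List (Fin k)) × Fin k) × Fin k =>
            (q.2 : ℕ) < (q.1.2 : ℕ)) ?_ fun q => Iff.rfl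
          exact Ar.lt hS (ArF.of_primrec hS (Primrec.fin_val.comp Primrec.snd))
            (ArF.of_primrec hS (Primrec.fin_val.comp (Primrec.snd.comp Primrec.fst)))
        · refine hpre.comp hS (f := fun q : ((Unit × List (Fin k)) × Fin k) × Fin k =>
            q.1.1.2 ++ [q.2]) ?_
          exact Primrec.list_append.comp (Primrec.snd.comp (Primrec.fst.comp Primrec.fst))
            (Primrec.list_cons.comp Primrec.snd (Primrec.const []))
      · refine Ar.all hS (R := fun (p : (Unit × List (Fin k)) × Fin k) (b : Fin k) =>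
          ¬ pre E (p.1.2 ++ [b])) (Ar.not hS ?_)
        refine hpre.comp hS (f := fun q : ((Unit × List (Fin k)) × Fin k) × Fin k =>
          q.1.1.2 ++ [q.2]) ?_
        exact Primrec.list_append.comp (Primrec.snd.comp (Primrec.fst.comp Primrec.fst))
          (Primrec.list_cons.comp Primrec.snd (Primrec.const []))
      · exact Ar.eq hS (ArF.const hS _) (ArF.snd hS)
    have hc := ArF.cov hS (G := fun (_ : Unit) (l : List (Fin k)) => XC1.nxt E (z0 0) l) hG
      (f := fun (_ : Unit) (n : ℕ) => XC1.pt E (z0 0) n) (by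
        intro _ n
        change XC1.nxt E (z0 0) (XC1.vals E (z0 0) n) = _
        rw [XC1.vals_eq])
    exact hc.comp hS (f := fun n : ℕ => ((), n)) (ArF.of_primrec hS
      ((Primrec.const ()).pair Primrec.id))

end Pool.Agent.Work.MP_69fea5_lc.TW
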