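import Pool.Agent.Work.MP_69fea5_lc.TW.Stmts

/-!
# Item C2 of the block TW: the class of a point is coded
-/

set_option autoImplicit false

namespace Pool.Agent.Work.MP_69fea5_lc.TW

open HK Filter Topology

namespace XC2

variable {k : ℕ}

/-- prefixes -/
def pf (y : ℕ → Fin k) (m : ℕ) : List (Fin k) := (List.range m).map y

@[simp] theorem pf_length (y : ℕ → Fin k) (m : ℕ) : (pf y m).length = m := by simp [pf]

theorem pf_getElem (y : ℕ → Fin k) (m i : ℕ) (h : i < (pf y m).length) : (pf y m)[i] = y i := by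
  simp [pf]

theorem pf_getElem? (y : ℕ → Fin k) (m i : ℕ) (h : i < m) : (pf y m)[i]? = some (y i) := by
  rw [List.getElem?_eq_getElem (by simpa using h), pf_getElem]

theorem pf_take (y : ℕ → Fin k) {m l : ℕ} (h : m ≤ l) : (pf y l).take m = pf y m := by
  simp [pf, ← List.map_take, List.take_range, h]

theorem pf_congr {y z : ℕ → Fin k} {m : ℕ} (h : ∀ i < m, y i = z i) : pf y m = pf z m := by
  unfold pf
  apply List.map_congr_left
  intro i hi
  exact h i (by simpa using hi)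

theorem pf_eq_iff (y : ℕ → Fin k) (w : List (Fin k)) :
    (∀ i (h : i < w.length), y i = w[i]) ↔ pf y w.length = w := by
  constructor
  · intro h
    apply List.ext_getElem
    · simp
    · intro i h1 h2
      rw [pf_getElem, h i h2]
  · intro h i hi
    have h1 : (pf y w.length)[i]'(by simpa using hi) = y i := pf_getElem _ _ _ _
    rw [← h1]
    congr 1

theorem pf_inj {y z : ℕ → Fin k} {m : ℕ} (h : pf y m = pf z m) : ∀ i < m, y i = z i := by
  intro i hi
  have h1 := pf_getElem? y m i hi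
  rw [h, pf_getElem? z m i hi] at h1
  exact (Option.some.inj h1).symm

theorem pre_iff (K : Set (ℕ → Fin k)) (w : List (Fin k)) :
    pre K w ↔ ∃ z ∈ K, pf z w.length = w := by
  unfold pre
  simp only [pf_eq_iff]

theorem pre2_iff (R : Set ((ℕ → Fin k) × (ℕ → Fin k))) (u v : List (Fin k)) :
    pre2 R (u, v) ↔ ∃ p ∈ R, pf p.1 u.length = u ∧ pf p.2 v.length = v := by
  unfold pre2
  simp only [pf_eq_iff]

theorem list_eq_pf {u : List (Fin k)} {a : ℕ → Fin k} {m : ℕ} (hl : u.length = m)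
    (h : ∀ i < m, u[i]? = some (a i)) : u = pf a m := by
  apply List.ext_getElem?
  intro i
  by_cases hi : i < m
  · rw [h i hi, pf_getElem? a m i hi]
  · rw [List.getElem?_eq_none (by omega), List.getElem?_eq_none (by simpa using hi)]

/-- compactness for relations -/
theorem cluster2 {R : Set ((ℕ → Fin k) × (ℕ → Fin k))} (hR : IsClosed R)
    (Z : ℕ → (ℕ → Fin k) × (ℕ → Fin k)) (hZ : ∀ l, Z l ∈ R) :
    ∃ z ∈ R, ∀ n L₀, ∃ L, L₀ ≤ L ∧ (∀ i < n, (Z L).1 i = z.1 i) ∧ ∀ i < n, (Z L).2 i = z.2 i := by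
  obtain ⟨z, hz, φ, hφ, ht⟩ := hR.isCompact.tendsto_subseq hZ
  refine ⟨z, hz, fun n L₀ => ?_⟩
  rw [Prod.tendsto_iff] at ht
  obtain ⟨ht1, ht2⟩ := ht
  rw [tendsto_pi_nhds] at ht1 ht2
  have h1 : ∀ i, ∀ᶠ l in atTop, (Z (φ l)).1 i = z.1 i := by
    intro i
    have := ht1 i
    rw [nhds_discrete, tendsto_pure] at this
    exact this
  have h1' : ∀ i, ∀ᶠ l in atTop, (Z (φ l)).2 i = z.2 i := by
    intro i
    have := ht2 i
    rw [nhds_discrete, tendsto_pure] at this
    exact this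
  have h2 : ∀ᶠ l in atTop, ∀ i ∈ Finset.range n, (Z (φ l)).1 i = z.1 i := by
    rw [Filter.eventually_all_finset]
    intro i _
    exact h1 i
  have h2' : ∀ᶠ l in atTop, ∀ i ∈ Finset.range n, (Z (φ l)).2 i = z.2 i := by
    rw [Filter.eventually_all_finset]
    intro i _
    exact h1' i
  obtain ⟨l, ⟨hl, hl2⟩, hl'⟩ := ((h2.and h2').and (eventually_ge_atTop L₀)).exists
  exact ⟨φ l, le_trans hl' (hφ.id_le l), fun i hi => hl i (by simpa using hi),
    fun i hi => hl2 i (by simpa using hi)⟩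

theorem pre_class {R : Set ((ℕ → Fin k) × (ℕ → Fin k))} (hR : IsClosed R) (y : ℕ → Fin k)
    (w : List (Fin k)) :
    pre {z | (y, z) ∈ R} w ↔ ∀ l : ℕ, w.length ≤ l → ∃ v : List (Fin k),
      (v.length = l ∧ v.take w.length = w) ∧ ∃ u : List (Fin k),
        (u.length = l ∧ ∀ i < l, u[i]? = some (y i)) ∧ pre2 R (u, v) := by
  constructor
  · intro h l hl
    obtain ⟨z, hz, hzw⟩ := (pre_iff _ w).1 h
    refine ⟨pf z l, ⟨by simp, by rw [pf_take _ hl, hzw]⟩, pf y l,
      ⟨by simp, fun i hi => pf_getElem? _ _ _ hi⟩, ?_⟩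
    rw [pre2_iff]
    exact ⟨(y, z), hz, by simp, by simp⟩
  · intro h
    have h0 : ∀ l : ℕ, ∃ p ∈ R, pf p.1 (w.length + l) = pf y (w.length + l) ∧
        pf p.2 w.length = w := by
      intro l
      obtain ⟨v, ⟨hv, hvw⟩, u, ⟨hu, hu'⟩, hp⟩ := h (w.length + l) (by omega)
      obtain ⟨p, hpR, h1, h2⟩ := (pre2_iff R u v).1 hp
      refine ⟨p, hpR, ?_, ?_⟩
      · rw [hu, list_eq_pf hu hu'] at h1
        exact h1
      · rw [hv] at h2
        rw [← pf_take p.2 (show w.length ≤ w.length + l by omega), h2, hvw]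
    choose Z hZ hZ1 hZ2 using h0
    obtain ⟨z, hz, hcl⟩ := cluster2 hR Z hZ
    have h1 : z.1 = y := by
      funext i
      obtain ⟨L, hL, h3, _⟩ := hcl (i + 1) (i + 1)
      rw [← h3 i (by omega)]
      exact pf_inj (hZ1 L) i (by omega)
    obtain ⟨L, _, _, h4⟩ := hcl w.length 0
    rw [pre_iff]
    refine ⟨z.2, ?_, ?_⟩
    · change (y, z.2) ∈ R
      rw [← h1]
      exact hz
    · rw [← pf_congr h4]
      exact hZ2 L

end XC2

theorem I_C2 : StC2 := by
  intro k S hS R hRc hR y hy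
  refine Ar.congr (R := fun w : List (Fin k) => ∀ l : ℕ, w.length ≤ l → ∃ v : List (Fin k),
      (v.length = l ∧ v.take w.length = w) ∧ ∃ u : List (Fin k),
        (u.length = l ∧ ∀ i < l, u[i]? = some (y i)) ∧ pre2 R (u, v)) ?_
      fun w => XC2.pre_class hRc y w
  refine Ar.all hS (R := fun (w : List (Fin k)) (l : ℕ) => w.length ≤ l → ∃ v : List (Fin k),
      (v.length = l ∧ v.take w.length = w) ∧ ∃ u : List (Fin k),
        (u.length = l ∧ ∀ i < l, u[i]? = some (y i)) ∧ pre2 R (u, v)) ?_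
  refine Ar.imp hS (Ar.le hS (ArF.of_primrec hS (Primrec.list_length.comp Primrec.fst))
    (ArF.snd hS)) ?_
  refine Ar.ex hS (R := fun (p : List (Fin k) × ℕ) (v : List (Fin k)) =>
      (v.length = p.2 ∧ v.take p.1.length = p.1) ∧ ∃ u : List (Fin k),
        (u.length = p.2 ∧ ∀ i < p.2, u[i]? = some (y i)) ∧ pre2 R (u, v)) ?_
  refine Ar.and hS (Ar.and hS ?_ ?_) ?_
  · exact Ar.eq hS (ArF.of_primrec hS (Primrec.list_length.comp Primrec.snd))
      (ArF.of_primrec hS (Primrec.snd.comp Primrec.fst))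
  · exact Ar.eq hS (ArF.of_primrec hS (Primrec.list_take.comp (Primrec.list_length.comp
      (Primrec.fst.comp Primrec.fst)) Primrec.snd))
      (ArF.of_primrec hS (Primrec.fst.comp Primrec.fst))
  · refine Ar.ex hS (R := fun (p : (List (Fin k) × ℕ) × List (Fin k)) (u : List (Fin k)) =>
        (u.length = p.1.2 ∧ ∀ i < p.1.2, u[i]? = some (y i)) ∧ pre2 R (u, p.2)) ?_
    have hn : Primrec fun q : ((List (Fin k) × ℕ) × List (Fin k)) × List (Fin k) => q.1.1.2 :=
      Primrec.snd.comp (Primrec.fst.comp Primrec.fst)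
    refine Ar.and hS (Ar.and hS ?_ ?_) ?_
    · exact Ar.eq hS (ArF.of_primrec hS (Primrec.list_length.comp Primrec.snd))
        (ArF.of_primrec hS hn)
    · refine Ar.ball hS (R := fun (q : ((List (Fin k) × ℕ) × List (Fin k)) × List (Fin k))
        (i : ℕ) => q.2[i]? = some (y i)) ?_ (ArF.of_primrec hS hn)
      refine Ar.eq hS (ArF.of_primrec hS ?_) ?_
      · exact Primrec.list_getElem?.comp (Primrec.snd.comp Primrec.fst) Primrec.snd
      · refine ArF.map hS Primrec.option_some ?_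
        exact hy.comp hS (ArF.snd hS)
    · exact hR.comp hS (Primrec.snd.pair (Primrec.snd.comp Primrec.fst))

end Pool.Agent.Work.MP_69fea5_lc.TW
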