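import Pool.Agent.Work.MP_69fea5_lc.TW.Stmts

/-!
# Item C3 of the block TW: the set of returning points is closed and coded
-/

set_option autoImplicit false

namespace Pool.Agent.Work.MP_69fea5_lc.TW

open HK Filter Topology

namespace XC3

variable {k : ℕ}

/-- prefixes -/
def pf (y : ℕ → Fin k) (m : ℕ) : List (Fin k) := (List.range m).map y

@[simp] theorem pf_length (y : ℕ → Fin k) (m : ℕ) : (pf y m).length = m := by simp [pf]

theorem pf_getElem (y : ℕ → Fin k) (m i : ℕ) (h : i < (pf y m).length) : (pf y m)[i] = y i := by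
  simp [pf]

theorem pf_getElem? (y : ℕ → Fin k) (m i : ℕ) (h : i < m) : (pf y m)[i]? = some (y i) := by
  rw [List.getElem?_eq_getElem (by simpa using h), pf_getElem]

theorem pf_take (y : ℕ → Fin k) {m l : ℕ} (h : m ≤ l) : (pf y l).take m = pf y m := by
  simp [pf, ← List.map_take, List.take_range, h]

theorem pf_congr {y z : ℕ → Fin k} {m : ℕ} (h : ∀ i < m, y i = z i) : pf y m = pf z m := by
  unfold pf
  apply List.map_congr_left
  intro i hi
  exact h i (by simpa using hi)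

theorem pf_eq_iff (y : ℕ → Fin k) (w : List (Fin k)) :
    (∀ i (h : i < w.length), y i = w[i]) ↔ pf y w.length = w := by
  constructor
  · intro h
    apply List.ext_getElem
    · simp
    · intro i h1 h2
      rw [pf_getElem, h i h2]
  · intro h i hi
    have h1 : (pf y w.length)[i]'(by simpa using hi) = y i := pf_getElem _ _ _ _
    rw [← h1]
    congr 1

theorem pf_inj {y z : ℕ → Fin k} {m : ℕ} (h : pf y m = pf z m) : ∀ i < m, y i = z i := by
  intro i hi
  have h1 := pf_getElem? y m i hi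
  rw [h, pf_getElem? z m i hi] at h1
  exact (Option.some.inj h1).symm

theorem close_iff (R : Set ((ℕ → Fin k) × (ℕ → Fin k))) (m : ℕ) (a b : ℕ → Fin k) :
    Close R m a b ↔ pre2 R (pf a m, pf b m) := by
  unfold Close pre2
  constructor
  · rintro ⟨p, hp, h1, h2⟩
    refine ⟨p, hp, ?_, ?_⟩
    · intro i hi
      rw [pf_getElem]
      exact h1 i (by simpa using hi)
    · intro i hi
      rw [pf_getElem]
      exact h2 i (by simpa using hi)
  · rintro ⟨p, hp, h1, h2⟩
    refine ⟨p, hp, ?_, ?_⟩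
    · intro i hi
      have := h1 i (by simpa using hi)
      rwa [pf_getElem] at this
    · intro i hi
      have := h2 i (by simpa using hi)
      rwa [pf_getElem] at this

theorem pre_iff (K : Set (ℕ → Fin k)) (w : List (Fin k)) :
    pre K w ↔ ∃ z ∈ K, pf z w.length = w := by
  unfold pre
  simp only [pf_eq_iff]

theorem pre_pf {K : Set (ℕ → Fin k)} {z : ℕ → Fin k} (hz : z ∈ K) (m : ℕ) : pre K (pf z m) := by
  rw [pre_iff]
  exact ⟨z, hz, by simp⟩

/-- compactness -/
theorem cluster {K : Set (ℕ → Fin k)} (hK : IsClosed K) (Z : ℕ → ℕ → Fin k) (hZ : ∀ l, Z l ∈ K) :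
    ∃ z ∈ K, ∀ n L₀, ∃ L, L₀ ≤ L ∧ ∀ i < n, Z L i = z i := by
  obtain ⟨z, hz, φ, hφ, ht⟩ := hK.isCompact.tendsto_subseq hZ
  refine ⟨z, hz, fun n L₀ => ?_⟩
  rw [tendsto_pi_nhds] at ht
  have h1 : ∀ i, ∀ᶠ l in atTop, Z (φ l) i = z i := by
    intro i
    have := ht i
    rw [nhds_discrete, tendsto_pure] at this
    exact this
  have h2 : ∀ᶠ l in atTop, ∀ i ∈ Finset.range n, Z (φ l) i = z i := by
    rw [Filter.eventually_all_finset]
    intro i _
    exact h1 i
  obtain ⟨l, hl, hl'⟩ := (h2.and (eventually_ge_atTop L₀)).exists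
  exact ⟨φ l, le_trans hl' (hφ.id_le l), fun i hi => hl i (by simpa using hi)⟩

/-- the arithmetical condition on prefixes -/
def G (R : Set ((ℕ → Fin k) × (ℕ → Fin k))) (c : ℕ → Fin k) (K : Set (ℕ → Fin k))
    (v : List (Fin k)) : Prop :=
  ∀ N : ℕ, ∃ L : ℕ, ∀ w : List (Fin k), (w.length = L + v.length ∧ pre K w) →
    ∃ x : ℕ, (N ≤ x ∧ x ≤ L) ∧
      (∃ u : List (Fin k), (u.length = v.length ∧ ∀ i < v.length, u[i]? = some (c (x + i))) ∧
        pre2 R (u, v)) ∧
      ∃ u : List (Fin k), (u.length = v.length ∧ ∀ i < v.length, u[i]? = w[x + i]?) ∧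
        pre2 R (u, w.take v.length)

theorem list_eq_pf {u : List (Fin k)} {a : ℕ → Fin k} {m : ℕ} (hl : u.length = m)
    (h : ∀ i < m, u[i]? = some (a i)) : u = pf a m := by
  apply List.ext_getElem?
  intro i
  by_cases hi : i < m
  · rw [h i hi, pf_getElem? a m i hi]
  · rw [List.getElem?_eq_none (by omega), List.getElem?_eq_none (by simpa using hi)]

/-- the points of `Ret` -/
theorem mem_ret {R : Set ((ℕ → Fin k) × (ℕ → Fin k))} {c : ℕ → Fin k} {K : Set (ℕ → Fin k)}
    (hK : IsClosed K) (y : ℕ → Fin k) :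
    y ∈ Ret R c K ↔ y ∈ K ∧ ∀ m, G R c K (pf y m) := by
  constructor
  · rintro ⟨hy, h⟩
    refine ⟨hy, fun m => ?_⟩
    by_contra hG
    unfold G at hG
    push Not at hG
    obtain ⟨N, hN⟩ := hG
    simp only [pf_length] at hN
    choose w hw hbad using hN
    have h1 : ∀ L, ∃ z ∈ K, pf z (w L).length = w L := fun L => (pre_iff K (w L)).1 (hw L).2
    choose Z hZ hZw using h1
    obtain ⟨z, hz, hcl⟩ := cluster hK Z hZ
    obtain ⟨x, hx, hc, hzz⟩ := h z hz m N
    obtain ⟨L, hL, hag⟩ := hcl (x + m) x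
    refine absurd ?_ (hbad L x ⟨hx, hL⟩ ⟨pf (sh x c) m, ⟨by simp, fun i hi => ?_⟩, ?_⟩
      (pf (sh x z) m) ⟨by simp, fun i hi => ?_⟩)
    · have h2 : (w L).take m = pf z m := by
        rw [← hZw L, (hw L).1, pf_take _ (by omega)]
        exact pf_congr fun i hi => hag i (by omega)
      rw [h2, ← close_iff]
      exact hzz
    · rw [pf_getElem? _ _ _ hi]
      rfl
    · rw [← close_iff]
      exact hc
    · rw [pf_getElem? _ _ _ hi, ← hZw L, (hw L).1, pf_getElem? _ _ _ (by omega),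
        hag _ (by omega)]
      rfl
  · rintro ⟨hy, h⟩
    refine ⟨hy, fun z hz m N => ?_⟩
    obtain ⟨L, hL⟩ := h m N
    obtain ⟨x, ⟨hx, hxL⟩, ⟨u, ⟨hu, hu'⟩, hp⟩, u', ⟨hv, hv'⟩, hq⟩ :=
      hL (pf z (L + m)) ⟨by simp, pre_pf hz _⟩
    simp only [pf_length] at hu hu' hv hv' hq
    refine ⟨x, hx, ?_, ?_⟩
    · rw [close_iff]
      have : u = pf (sh x c) m := list_eq_pf hu hu'
      rw [← this]
      exact hp
    · rw [close_iff]
      have h1 : u' = pf (sh x z) m := by
        refine list_eq_pf hv fun i hi => ?_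
        rw [hv' i hi, pf_getElem? _ _ _ (by omega)]
        rfl
      rw [pf_take _ (by omega)] at hq
      rw [← h1]
      exact hq

theorem isClosed_pf (P : List (Fin k) → Prop) : IsClosed {y : ℕ → Fin k | ∀ m, P (pf y m)} := by
  rw [Set.ofPred_forall]
  refine isClosed_iInter fun m => ?_
  have h : {y : ℕ → Fin k | P (pf y m)} =
      (fun y : ℕ → Fin k => fun i : Fin m => y i) ⁻¹' {f | P (List.ofFn f)} := by
    ext y
    simp only [Set.mem_ofPred_eq, Set.mem_preimage]
    have : pf y m = List.ofFn fun i : Fin m => y i := by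
      apply List.ext_getElem
      · simp
      · intro i h1 h2
        rw [pf_getElem]
        simp
    rw [this]
  rw [h]
  refine IsClosed.preimage (by fun_prop) (isClosed_discrete _)

theorem pre_ret {R : Set ((ℕ → Fin k) × (ℕ → Fin k))} {c : ℕ → Fin k} {K : Set (ℕ → Fin k)}
    (hK : IsClosed K) (w : List (Fin k)) :
    pre (Ret R c K) w ↔ ∀ l : ℕ, w.length ≤ l → ∃ v : List (Fin k),
      (v.length = l ∧ v.take w.length = w) ∧ pre K v ∧ ∀ m < l + 1, G R c K (v.take m) := by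
  constructor
  · intro h l hl
    obtain ⟨z, hz, hzw⟩ := (pre_iff _ w).1 h
    obtain ⟨hzK, hzG⟩ := (mem_ret hK z).1 hz
    refine ⟨pf z l, ⟨by simp, by rw [pf_take _ hl, hzw]⟩, pre_pf hzK l, fun m hm => ?_⟩
    rw [pf_take _ (by omega)]
    exact hzG m
  · intro h
    have h0 : ∀ l : ℕ, ∃ v : List (Fin k), w.length ≤ l →
        (v.length = l ∧ v.take w.length = w) ∧ pre K v ∧ ∀ m < l + 1, G R c K (v.take m) := by
      intro l
      by_cases hl : w.length ≤ l
      · obtain ⟨v, hv⟩ := h l hl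
        exact ⟨v, fun _ => hv⟩
      · exact ⟨[], fun h => absurd h hl⟩
    choose v hv using h0
    have h1 : ∀ l : ℕ, ∃ z ∈ K, pf z (v (w.length + l)).length = v (w.length + l) :=
      fun l => (pre_iff K _).1 (hv (w.length + l) (by omega)).2.1
    choose Z hZ hZv using h1
    obtain ⟨z, hz, hcl⟩ := cluster hK Z hZ
    -- prefixes of the limit
    have h2 : ∀ m : ℕ, ∃ l, m ≤ w.length + l ∧ (v (w.length + l)).take m = pf z m := by
      intro m
      obtain ⟨L, hL, hag⟩ := hcl m m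
      refine ⟨L, by omega, ?_⟩
      rw [← hZv L, (hv (w.length + L) (by omega)).1.1, pf_take _ (by omega)]
      exact pf_congr hag
    rw [pre_iff]
    refine ⟨z, (mem_ret hK z).2 ⟨hz, fun m => ?_⟩, ?_⟩
    · obtain ⟨l, hl, h3⟩ := h2 m
      rw [← h3]
      exact (hv (w.length + l) (by omega)).2.2 m (by omega)
    · obtain ⟨l, hl, h3⟩ := h2 w.length
      rw [← h3]
      exact (hv (w.length + l) (by omega)).1.2

section ar

variable {S : Set (Set ℕ)} {R : Set ((ℕ → Fin k) × (ℕ → Fin k))} {c : ℕ → Fin k}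
  {K : Set (ℕ → Fin k)}

theorem ar_G (hS : Cl S) (hR : Ar S (pre2 R)) (hc : ArF S c) (hK : Ar S (pre K)) :
    Ar S (G R c K) := by
  unfold G
  refine Ar.all hS (R := fun (v : List (Fin k)) (N : ℕ) => ∃ L : ℕ, ∀ w : List (Fin k),
    (w.length = L + v.length ∧ pre K w) → ∃ x : ℕ, (N ≤ x ∧ x ≤ L) ∧
      (∃ u : List (Fin k), (u.length = v.length ∧ ∀ i < v.length, u[i]? = some (c (x + i))) ∧
        pre2 R (u, v)) ∧
      ∃ u : List (Fin k), (u.length = v.length ∧ ∀ i < v.length, u[i]? = w[x + i]?) ∧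
        pre2 R (u, w.take v.length)) ?_
  refine Ar.ex hS (R := fun (p : List (Fin k) × ℕ) (L : ℕ) => ∀ w : List (Fin k),
    (w.length = L + p.1.length ∧ pre K w) → ∃ x : ℕ, (p.2 ≤ x ∧ x ≤ L) ∧
      (∃ u : List (Fin k), (u.length = p.1.length ∧
        ∀ i < p.1.length, u[i]? = some (c (x + i))) ∧ pre2 R (u, p.1)) ∧
      ∃ u : List (Fin k), (u.length = p.1.length ∧ ∀ i < p.1.length, u[i]? = w[x + i]?) ∧
        pre2 R (u, w.take p.1.length)) ?_
  refine Ar.all hS (R := fun (p : (List (Fin k) × ℕ) × ℕ) (w : List (Fin k)) =>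
    (w.length = p.2 + p.1.1.length ∧ pre K w) → ∃ x : ℕ, (p.1.2 ≤ x ∧ x ≤ p.2) ∧
      (∃ u : List (Fin k), (u.length = p.1.1.length ∧
        ∀ i < p.1.1.length, u[i]? = some (c (x + i))) ∧ pre2 R (u, p.1.1)) ∧
      ∃ u : List (Fin k), (u.length = p.1.1.length ∧
        ∀ i < p.1.1.length, u[i]? = w[x + i]?) ∧ pre2 R (u, w.take p.1.1.length)) ?_
  refine Ar.imp hS (Ar.and hS ?_ ?_) ?_
  · refine Ar.eq hS (ArF.of_primrec hS (Primrec.list_length.comp Primrec.snd))
      (ArF.of_primrec hS ?_)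
    exact Primrec.nat_add.comp (Primrec.snd.comp Primrec.fst)
      (Primrec.list_length.comp (Primrec.fst.comp (Primrec.fst.comp Primrec.fst)))
  · exact hK.comp hS Primrec.snd
  refine Ar.ex hS (R := fun (p : ((List (Fin k) × ℕ) × ℕ) × List (Fin k)) (x : ℕ) =>
    (p.1.1.2 ≤ x ∧ x ≤ p.1.2) ∧
      (∃ u : List (Fin k), (u.length = p.1.1.1.length ∧
        ∀ i < p.1.1.1.length, u[i]? = some (c (x + i))) ∧ pre2 R (u, p.1.1.1)) ∧
      ∃ u : List (Fin k), (u.length = p.1.1.1.length ∧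
        ∀ i < p.1.1.1.length, u[i]? = p.2[x + i]?) ∧ pre2 R (u, p.2.take p.1.1.1.length)) ?_
  refine Ar.and hS (Ar.and hS ?_ ?_) (Ar.and hS ?_ ?_)
  · exact Ar.le hS (ArF.of_primrec hS (Primrec.snd.comp (Primrec.fst.comp (Primrec.fst.comp
      Primrec.fst)))) (ArF.snd hS)
  · exact Ar.le hS (ArF.snd hS) (ArF.of_primrec hS (Primrec.snd.comp (Primrec.fst.comp
      Primrec.fst)))
  · refine Ar.ex hS (R := fun (p : (((List (Fin k) × ℕ) × ℕ) × List (Fin k)) × ℕ)
      (u : List (Fin k)) => (u.length = p.1.1.1.1.length ∧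
        ∀ i < p.1.1.1.1.length, u[i]? = some (c (p.2 + i))) ∧ pre2 R (u, p.1.1.1.1)) ?_
    have hv : Primrec fun q : ((((List (Fin k) × ℕ) × ℕ) × List (Fin k)) × ℕ) × List (Fin k) =>
        q.1.1.1.1.1 := Primrec.fst.comp (Primrec.fst.comp (Primrec.fst.comp (Primrec.fst.comp
          Primrec.fst)))
    refine Ar.and hS (Ar.and hS ?_ ?_) ?_
    · exact Ar.eq hS (ArF.of_primrec hS (Primrec.list_length.comp Primrec.snd))
        (ArF.of_primrec hS (Primrec.list_length.comp hv))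
    · refine Ar.ball hS (R := fun (q : ((((List (Fin k) × ℕ) × ℕ) × List (Fin k)) × ℕ) ×
        List (Fin k)) (i : ℕ) => q.2[i]? = some (c (q.1.2 + i))) ?_
        (ArF.of_primrec hS (Primrec.list_length.comp hv))
      refine Ar.eq hS (ArF.of_primrec hS ?_) ?_
      · exact Primrec.list_getElem?.comp (Primrec.snd.comp Primrec.fst) Primrec.snd
      · refine ArF.map hS Primrec.option_some ?_
        refine hc.comp hS (f := fun q : (((((List (Fin k) × ℕ) × ℕ) × List (Fin k)) × ℕ) ×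
          List (Fin k)) × ℕ => q.1.1.2 + q.2) (ArF.of_primrec hS ?_)
        exact Primrec.nat_add.comp (Primrec.snd.comp (Primrec.fst.comp Primrec.fst)) Primrec.snd
    · exact hR.comp hS (Primrec.snd.pair hv)
  · refine Ar.ex hS (R := fun (p : (((List (Fin k) × ℕ) × ℕ) × List (Fin k)) × ℕ)
      (u : List (Fin k)) => (u.length = p.1.1.1.1.length ∧
        ∀ i < p.1.1.1.1.length, u[i]? = p.1.2[p.2 + i]?) ∧
          pre2 R (u, p.1.2.take p.1.1.1.1.length)) ?_
    have hv : Primrec fun q : ((((List (Fin k) × ℕ) × ℕ) × List (Fin k)) × ℕ) × List (Fin k) =>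
        q.1.1.1.1.1 := Primrec.fst.comp (Primrec.fst.comp (Primrec.fst.comp (Primrec.fst.comp
          Primrec.fst)))
    have hw : Primrec fun q : ((((List (Fin k) × ℕ) × ℕ) × List (Fin k)) × ℕ) × List (Fin k) =>
        q.1.1.2 := Primrec.snd.comp (Primrec.fst.comp Primrec.fst)
    refine Ar.and hS (Ar.and hS ?_ ?_) ?_
    · exact Ar.eq hS (ArF.of_primrec hS (Primrec.list_length.comp Primrec.snd))
        (ArF.of_primrec hS (Primrec.list_length.comp hv))
    · refine Ar.ball hS (R := fun (q : ((((List (Fin k) × ℕ) × ℕ) × List (Fin k)) × ℕ) ×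
        List (Fin k)) (i : ℕ) => q.2[i]? = q.1.1.2[q.1.2 + i]?) ?_
        (ArF.of_primrec hS (Primrec.list_length.comp hv))
      refine Ar.eq hS (ArF.of_primrec hS ?_) (ArF.of_primrec hS ?_)
      · exact Primrec.list_getElem?.comp (Primrec.snd.comp Primrec.fst) Primrec.snd
      · exact Primrec.list_getElem?.comp (hw.comp Primrec.fst) (Primrec.nat_add.comp
          (Primrec.snd.comp (Primrec.fst.comp Primrec.fst)) Primrec.snd)
    · exact hR.comp hS (Primrec.snd.pair (Primrec.list_take.comp (Primrec.list_length.comp hv) hw))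

theorem ar_pre_ret (hS : Cl S) (hR : Ar S (pre2 R)) (hc : ArF S c) (hKc : IsClosed K)
    (hK : Ar S (pre K)) : Ar S (pre (Ret R c K)) := by
  refine Ar.congr (R := fun w : List (Fin k) => ∀ l : ℕ, w.length ≤ l → ∃ v : List (Fin k),
      (v.length = l ∧ v.take w.length = w) ∧ pre K v ∧ ∀ m < l + 1, G R c K (v.take m)) ?_
      fun w => pre_ret hKc w
  refine Ar.all hS (R := fun (w : List (Fin k)) (l : ℕ) => w.length ≤ l → ∃ v : List (Fin k),
      (v.length = l ∧ v.take w.length = w) ∧ pre K v ∧ ∀ m < l + 1, G R c K (v.take m)) ?_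
  refine Ar.imp hS (Ar.le hS (ArF.of_primrec hS (Primrec.list_length.comp Primrec.fst))
    (ArF.snd hS)) ?_
  refine Ar.ex hS (R := fun (p : List (Fin k) × ℕ) (v : List (Fin k)) =>
      (v.length = p.2 ∧ v.take p.1.length = p.1) ∧ pre K v ∧
        ∀ m < p.2 + 1, G R c K (v.take m)) ?_
  refine Ar.and hS (Ar.and hS ?_ ?_) (Ar.and hS ?_ ?_)
  · exact Ar.eq hS (ArF.of_primrec hS (Primrec.list_length.comp Primrec.snd))
      (ArF.of_primrec hS (Primrec.snd.comp Primrec.fst))
  · exact Ar.eq hS (ArF.of_primrec hS (Primrec.list_take.comp (Primrec.list_length.comp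
      (Primrec.fst.comp Primrec.fst)) Primrec.snd))
      (ArF.of_primrec hS (Primrec.fst.comp Primrec.fst))
  · exact hK.comp hS Primrec.snd
  · refine Ar.ball hS (R := fun (q : (List (Fin k) × ℕ) × List (Fin k)) (m : ℕ) =>
      G R c K (q.2.take m)) ?_ (ArF.of_primrec hS
        (Primrec.succ.comp (Primrec.snd.comp Primrec.fst)))
    exact (ar_G hS hR hc hK).comp hS (Primrec.list_take.comp Primrec.snd
      (Primrec.snd.comp Primrec.fst))

end ar

end XC3

theorem I_C3 : StC3 := by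
  intro k S hS M R _ hR c hc K hKc _ hK
  refine ⟨?_, XC3.ar_pre_ret hS hR hc hKc hK⟩
  have h : Ret R c K = K ∩ {y | ∀ m, XC3.G R c K (XC3.pf y m)} := by
    ext y
    exact XC3.mem_ret hKc y
  rw [h]
  exact hKc.inter (XC3.isClosed_pf _)

end Pool.Agent.Work.MP_69fea5_lc.TW
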