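import Pool.Agent.Work.MP_69fea5_lc.TW.Stmts

/-!
# Item C5: uniform countable intersections
-/

set_option autoImplicit false

open Filter Topology

namespace Pool.Agent.Work.MP_69fea5_lc.TW

open HK

namespace XC5

variable {k : ℕ}

/-- a limit of points with longer and longer prefixes -/
theorem exists_limit (F : ℕ → Set (ℕ → Fin k)) (hF : ∀ n, IsClosed (F n)) (w : List (Fin k))
    (h : ∀ l : ℕ, ∃ v : List (Fin k), l ≤ v.length ∧ v.take w.length = w ∧
      ∀ n < l, pre (F n) v) : pre (⋂ n, F n) w := by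
  classical
  choose v hl hw hp using h
  -- points with the prefix `v (l + 1)`
  choose q hqF hq using fun (n : ℕ) (l : ℕ) (hn : n < l) => hp l n hn
  set P : ℕ → ℕ → Fin k := fun l => q 0 (l + 1) (Nat.succ_pos l) with hP
  set U : Ultrafilter ℕ := hyperfilter ℕ with hU
  have hUt : (U : Filter ℕ) ≤ atTop := by
    rw [hU]
    exact Nat.hyperfilter_le_atTop
  set z : ℕ → Fin k := (U.map P).lim with hz
  have hlim : Tendsto P U (𝓝 z) := (U.map P).le_nhds_lim
  refine ⟨z, Set.mem_iInter.2 fun n => ?_, ?_⟩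
  · -- points of `F n` with the prefix `v (l + 1)`
    set Q : ℕ → ℕ → Fin k := fun l => if hn : n < l + 1 then q n (l + 1) hn else P l with hQ
    have h1 : Tendsto Q U (𝓝 z) := by
      rw [tendsto_pi_nhds] at hlim ⊢
      intro i
      refine (hlim i).congr' ?_
      have h2 : ∀ᶠ l in (U : Filter ℕ), n + i ≤ l := hUt (eventually_ge_atTop (n + i))
      filter_upwards [h2] with l hl'
      have hn : n < l + 1 := by omega
      have hi : i < (v (l + 1)).length := lt_of_lt_of_le (by omega) (hl (l + 1))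
      simp only [hQ, dif_pos hn, hP]
      rw [hq n (l + 1) hn i hi, hq 0 (l + 1) (Nat.succ_pos l) i hi]
    refine (hF n).mem_of_tendsto h1 ?_
    have h2 : ∀ᶠ l in (U : Filter ℕ), n ≤ l := hUt (eventually_ge_atTop n)
    filter_upwards [h2] with l hl'
    have hn : n < l + 1 := by omega
    simp only [hQ, dif_pos hn]
    exact hqF n (l + 1) hn
  · intro i hi
    have h3 := (tendsto_pi_nhds.1 hlim i).eventually
      (IsOpen.mem_nhds (isOpen_discrete ({z i} : Set (Fin k))) (Set.mem_singleton _))
    obtain ⟨l, hl'⟩ := h3.exists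
    have h4 : P l i = z i := hl'
    rw [← h4]
    have h5 : w = (v (l + 1)).take w.length := (hw (l + 1)).symm
    have hi' : i < (v (l + 1)).length := by
      have := congrArg List.length h5
      rw [List.length_take] at this
      omega
    rw [hP]
    simp only
    rw [hq 0 (l + 1) (Nat.succ_pos l) i hi']
    have h6 : w[i]? = ((v (l + 1)).take w.length)[i]? := by rw [← h5]
    rw [List.getElem?_take_of_lt hi, List.getElem?_eq_getElem hi, List.getElem?_eq_getElem hi',
      Option.some.injEq] at h6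
    exact h6.symm

theorem pre_iff (F : ℕ → Set (ℕ → Fin k)) (hF : ∀ n, IsClosed (F n)) (w : List (Fin k)) :
    pre (⋂ n, F n) w ↔ ∀ l : ℕ, ∃ v : List (Fin k), l ≤ v.length ∧ v.take w.length = w ∧
      ∀ n < l, pre (F n) v := by
  constructor
  · rintro ⟨z, hz, hw⟩ l
    refine ⟨List.ofFn fun i : Fin (w.length + l) => z i, by simp, ?_, ?_⟩
    · refine List.ext_getElem (by simp) ?_
      intro i h1 h2
      rw [List.getElem_take, List.getElem_ofFn]
      exact hw i h2
    · intro n _
      refine ⟨z, Set.mem_iInter.1 hz n, fun i h => ?_⟩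
      rw [List.getElem_ofFn]
  · exact exists_limit F hF w

end XC5

theorem I_C5 : StC5 := by
  intro k S hS α _ F hF hA
  refine Ar.congr (R := fun p : α × List (Fin k) => ∀ l : ℕ, ∃ v : List (Fin k),
    l ≤ v.length ∧ v.take p.2.length = p.2 ∧ ∀ n < l, pre (F p.1 n) v) ?_
    fun p => XC5.pre_iff (F p.1) (hF p.1) p.2
  refine Ar.all hS (R := fun (p : α × List (Fin k)) (l : ℕ) => ∃ v : List (Fin k),
    l ≤ v.length ∧ v.take p.2.length = p.2 ∧ ∀ n < l, pre (F p.1 n) v) ?_
  refine Ar.ex hS (R := fun (q : (α × List (Fin k)) × ℕ) (v : List (Fin k)) =>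
    q.2 ≤ v.length ∧ v.take q.1.2.length = q.1.2 ∧ ∀ n < q.2, pre (F q.1.1 n) v) ?_
  refine Ar.and hS ?_ (Ar.and hS ?_ ?_)
  · exact Ar.le hS (ArF.of_primrec hS (Primrec.snd.comp Primrec.fst))
      (ArF.of_primrec hS (Primrec.list_length.comp Primrec.snd))
  · refine Ar.eq hS (ArF.of_primrec hS ?_) (ArF.of_primrec hS
      (Primrec.snd.comp (Primrec.fst.comp Primrec.fst)))
    exact Primrec.list_take.comp
      (Primrec.list_length.comp (Primrec.snd.comp (Primrec.fst.comp Primrec.fst))) Primrec.snd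
  · refine Ar.ball hS (R := fun (r : ((α × List (Fin k)) × ℕ) × List (Fin k)) n =>
      pre (F r.1.1.1 n) r.2) ?_ (ArF.of_primrec hS (Primrec.snd.comp Primrec.fst))
    exact hA.comp hS (f := fun s : (((α × List (Fin k)) × ℕ) × List (Fin k)) × ℕ =>
      ((s.1.1.1.1, s.2), s.1.2))
      (((Primrec.fst.comp (Primrec.fst.comp (Primrec.fst.comp Primrec.fst))).pair
        Primrec.snd).pair (Primrec.snd.comp Primrec.fst))

end Pool.Agent.Work.MP_69fea5_lc.TW
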