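import Pool.Agent.Work.MP_69fea5_lc.TW.Stmts
import Pool.Agent.Work.MP_69fea5_lc.PD.Comb
import Pool.Agent.Work.MP_69fea5_lc.PD.I_DYN

/-!
# Item C6: the solution of Hindman's theorem from a point proximal to `c`
-/

set_option autoImplicit false

namespace Pool.Agent.Work.MP_69fea5_lc.TW

open HK Filter

namespace XC6

variable {k : ℕ}

/-- a point of `M` that is proximal to `c` gives a solution point -/
theorem sol {M : Set (ℕ → Fin k)} (hM : MinimalSubshift M) {c y : ℕ → Fin k} (hy : y ∈ M)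
    (hyc : ∀ m N, ∃ x, N ≤ x ∧ ∀ i < m, y (x + i) = c (x + i)) : PD.Sol c y := by
  have hM' : PD.MinimalSubshift M := ⟨hM.nonempty, hM.closed, hM.shift, hM.minimal⟩
  have hp : PD.Proximal y c := fun l => by
    obtain ⟨x, _, hx⟩ := hyc l 0
    exact ⟨x, hx⟩
  obtain ⟨u, -, h1, h2, h3⟩ := PD.exists_idem hM' hp hy
  intro m N
  have hyc' : ∀ᶠ x in (u : Filter ℕ), ∀ i < m, y (x + i) = c (x + i) :=
    (eventually_all_finset (Finset.range m)).2 (fun i _ => h2 i) |>.mono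
      fun _ hx i hi => hx i (Finset.mem_range.2 hi)
  obtain ⟨x, hx⟩ := ((h1 N).and (hyc'.and (PD.lm_spec_lt u y m))).exists
  refine ⟨x, hx.1, fun i hi => ?_, fun i hi => ?_⟩
  · rw [← hx.2.1 i hi, hx.2.2 i hi, h3]
  · rw [hx.2.2 i hi, h3]

variable {S : Set (Set ℕ)}

theorem ar_KK (hS : Cl S) {c y : ℕ → Fin k} (hc : ArF S c) (hy : ArF S y) :
    Ar S fun p : ℕ × ℕ => PD.KK c y p.1 p.2 := by
  refine Ar.and hS (Ar.lt hS (ArF.fst hS) (ArF.snd hS)) ?_
  refine Ar.ball hS (R := fun (p : ℕ × ℕ) i => c (p.2 + i) = y i ∧ y (p.2 + i) = y i) ?_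
    (ArF.of_primrec hS (Primrec.succ.comp Primrec.fst))
  have h1 : ArF S fun q : (ℕ × ℕ) × ℕ => q.1.2 + q.2 :=
    ArF.of_primrec hS (Primrec.nat_add.comp (Primrec.snd.comp Primrec.fst) Primrec.snd)
  refine Ar.and hS ?_ ?_
  · exact Ar.eq hS (hc.comp hS h1) (hy.comp hS (ArF.snd hS))
  · exact Ar.eq hS (hy.comp hS h1) (hy.comp hS (ArF.snd hS))

theorem arF_ss (hS : Cl S) {c y : ℕ → Fin k} (hc : ArF S c) (hy : ArF S y) :
    ArF S fun n => PD.ss c y n := by
  classical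
  have h : ArF S fun p : Unit × ℕ => PD.ss c y p.2 := by
    refine ArF.rec hS (α := Unit) (b := fun _ => 0)
      (G := fun _ n s => if PD.KK c y s n then s + n else s) (f := fun _ n => PD.ss c y n)
      (ArF.const hS 0) ?_ (fun _ => rfl) (fun _ n => ?_)
    · refine ArF.ite hS (P := fun p : Unit × ℕ × ℕ => PD.KK c y p.2.2 p.2.1) ?_ ?_ ?_
      · exact (ar_KK hS hc hy).comp hS (f := fun p : Unit × ℕ × ℕ => (p.2.2, p.2.1))
          ((Primrec.snd.comp Primrec.snd).pair (Primrec.fst.comp Primrec.snd))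
      · exact ArF.of_primrec hS (Primrec.nat_add.comp (Primrec.snd.comp Primrec.snd)
          (Primrec.fst.comp Primrec.snd))
      · exact ArF.of_primrec hS (Primrec.snd.comp Primrec.snd)
    · rw [PD.ss_succ]
  exact ArF.comp hS h (f := fun n : ℕ => ((), n))
    (ArF.of_primrec hS ((Primrec.const ()).pair Primrec.id))

end XC6

open XC6 in
theorem I_C6 : StC6 := by
  intro k S hS M hM c hc y hy hyS hyc
  obtain ⟨h1, h2, h3⟩ := PD.XX_sol (sol hM hy hyc)
  refine ⟨PD.XX c y, ?_, h1, h2, h3⟩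
  refine Ar.set (R := fun n => PD.KK c y (PD.ss c y n) n) ?_
  exact Ar.sub hS (ar_KK hS hc hyS) ((arF_ss hS hc hyS).pair hS (ArF.id hS))

end Pool.Agent.Work.MP_69fea5_lc.TW
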