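import Pool.Agent.Work.MP_69fea5_lc.TW.I_C2

/-!
# Baire category in a coded closed set
-/

set_option autoImplicit false

namespace Pool.Agent.Work.MP_69fea5_lc.TW

open HK Filter Topology

namespace MX

open XC2

variable {k : ℕ}

/-- if every requirement can be met by extending a prefix, there is a point in `S` which meets
all of them -/
theorem baire {S : Set (Set ℕ)} (hS : Cl S) {K : Set (ℕ → Fin k)} (hK : IsClosed K)
    (hne : K.Nonempty) (hKS : Ar S (pre K)) {Q : ℕ → List (Fin k) → Prop}
    (hQS : Ar S fun p : ℕ × List (Fin k) => Q p.1 p.2)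
    (hQ : ∀ n w, pre K w → ∃ w' : List (Fin k), w'.take w.length = w ∧ w.length ≤ w'.length ∧
      pre K w' ∧ Q n w') :
    ∃ y ∈ K, ArF S y ∧ ∀ n, ∃ m, Q n (pf y m) := by
  classical
  obtain ⟨z0, hz0⟩ := hne
  -- extensions
  let X : ℕ × List (Fin k) → List (Fin k) → Prop := fun p w' =>
    (w'.take p.2.length = p.2 ∧ p.2.length ≤ w'.length) ∧ (p.1 ≤ w'.length ∧
      (pre K w' ∧ Q p.1 w'))
  have hX : ∀ n w, pre K w → ∃ w', X (n, w) w' := by
    intro n w hw
    obtain ⟨z, hz, hzw⟩ := (pre_iff _ _).1 hw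
    have h1 : pre K (pf z (max w.length n)) := (pre_iff _ _).2 ⟨z, hz, by simp⟩
    obtain ⟨w', h2, h3, h4, h5⟩ := hQ n _ h1
    simp only [pf_length] at h2 h3
    refine ⟨w', ⟨?_, le_trans (le_max_left _ _) h3⟩, le_trans (le_max_right _ _) h3, h4, h5⟩
    have h6 : (w'.take (max w.length n)).take w.length = pf z w.length := by
      rw [h2, pf_take z (le_max_left _ _)]
    rw [List.take_take, min_eq_left (le_max_left _ _), hzw] at h6
    exact h6
  have hXS : Ar S fun q : (ℕ × List (Fin k)) × List (Fin k) => X q.1 q.2 := by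
    have e1 : Primrec fun q : (ℕ × List (Fin k)) × List (Fin k) => q.1.2.length :=
      Primrec.list_length.comp (Primrec.snd.comp Primrec.fst)
    have e2 : Primrec fun q : (ℕ × List (Fin k)) × List (Fin k) => q.2.length :=
      Primrec.list_length.comp Primrec.snd
    refine Ar.and hS (Ar.and hS ?_ ?_) (Ar.and hS ?_ (Ar.and hS ?_ ?_))
    · exact Ar.eq hS (ArF.of_primrec hS (Primrec.list_take.comp e1 Primrec.snd))
        (ArF.of_primrec hS (Primrec.snd.comp Primrec.fst))
    · exact Ar.le hS (ArF.of_primrec hS e1) (ArF.of_primrec hS e2)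
    · exact Ar.le hS (ArF.of_primrec hS (Primrec.fst.comp Primrec.fst)) (ArF.of_primrec hS e2)
    · exact hKS.comp hS Primrec.snd
    · exact hQS.comp hS ((Primrec.fst.comp Primrec.fst).pair Primrec.snd)
  -- least extension
  let Y : ℕ × List (Fin k) → List (Fin k) → Prop := fun p w' =>
    (X p w' ∧ ∀ v, Encodable.encode v < Encodable.encode w' → ¬ X p v) ∨
      ((∀ v, ¬ X p v) ∧ w' = p.2)
  have hYS : Ar S fun q : (ℕ × List (Fin k)) × List (Fin k) => Y q.1 q.2 := by
    have hX' : Ar S fun q : ((ℕ × List (Fin k)) × List (Fin k)) × List (Fin k) =>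
        ¬ X q.1.1 q.2 := Ar.not hS (hXS.comp hS ((Primrec.fst.comp Primrec.fst).pair Primrec.snd))
    refine Ar.or hS (Ar.and hS hXS ?_) (Ar.and hS ?_ ?_)
    · refine Ar.all hS (R := fun (q : (ℕ × List (Fin k)) × List (Fin k)) (v : List (Fin k)) =>
        Encodable.encode v < Encodable.encode q.2 → ¬ X q.1 v) ?_
      exact Ar.imp hS (Ar.lt hS (ArF.of_primrec hS (Primrec.encode.comp Primrec.snd))
        (ArF.of_primrec hS (Primrec.encode.comp (Primrec.snd.comp Primrec.fst)))) hX'
    · exact Ar.all hS (R := fun (q : (ℕ × List (Fin k)) × List (Fin k)) (v : List (Fin k)) =>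
        ¬ X q.1 v) hX'
    · exact Ar.eq hS (ArF.snd hS) (ArF.of_primrec hS (Primrec.snd.comp Primrec.fst))
  have hYe : ∀ p, ∃ w', Y p w' := by
    intro p
    by_cases hq : ∃ w', X p w'
    · have hq' : ∃ n, ∃ w', Encodable.encode w' = n ∧ X p w' := by
        obtain ⟨w', hw'⟩ := hq
        exact ⟨_, w', rfl, hw'⟩
      obtain ⟨w', hqe, hqP⟩ := Nat.find_spec hq'
      refine ⟨w', Or.inl ⟨hqP, fun v hv hP => ?_⟩⟩
      rw [hqe] at hv
      exact Nat.find_min hq' hv ⟨v, rfl, hP⟩
    · push Not at hq
      exact ⟨_, Or.inr ⟨hq, rfl⟩⟩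
  have hYu : ∀ p w w', Y p w → Y p w' → w = w' := by
    rintro p w w' (⟨h1, h2⟩ | ⟨h1, h2⟩) (⟨h3, h4⟩ | ⟨h3, h4⟩)
    · rcases lt_trichotomy (Encodable.encode w) (Encodable.encode w') with h | h | h
      · exact absurd h1 (h4 _ h)
      · exact Encodable.encode_injective h
      · exact absurd h3 (h2 _ h)
    · exact absurd h1 (h3 _)
    · exact absurd h3 (h1 _)
    · rw [h2, h4]
  choose g hg using hYe
  have hgS : ArF S g := ArF.of_exists hYS fun p w =>
    ⟨fun h => h ▸ hg p, fun h => hYu _ _ _ (hg p) h⟩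
  have hgX : ∀ n w, pre K w → X (n, w) (g (n, w)) := by
    intro n w hw
    rcases hg (n, w) with h | h
    · exact h.1
    · obtain ⟨w', hw'⟩ := hX n w hw
      exact absurd hw' (h.1 w')
  -- the sequence
  let W : ℕ → List (Fin k) := fun n => Nat.rec [] (fun n w => g (n, w)) n
  have hW0 : W 0 = [] := rfl
  have hWs : ∀ n, W (n + 1) = g (n, W n) := fun n => rfl
  have hWK : ∀ n, pre K (W n) := by
    intro n
    induction n with
    | zero => exact (pre_iff _ _).2 ⟨z0, hz0, by simp [W, pf]⟩
    | succ n ih => exact (hgX n (W n) ih).2.2.1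
  have hWX : ∀ n, X (n, W n) (W (n + 1)) := fun n => hgX n (W n) (hWK n)
  have hWS : ArF S fun n : ℕ => W n := by
    have h : ArF S fun p : Unit × ℕ => W p.2 := by
      refine ArF.rec hS (α := Unit) (b := fun _ => ([] : List (Fin k)))
        (G := fun _ n w => g (n, w)) (f := fun _ n => W n) (ArF.const hS _) ?_ (fun _ => rfl)
        (fun _ n => rfl)
      exact hgS.comp hS (ArF.of_primrec hS ((Primrec.fst.comp Primrec.snd).pair
        (Primrec.snd.comp Primrec.snd)))
    exact ArF.comp hS h (f := fun n : ℕ => ((), n))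
      (ArF.of_primrec hS ((Primrec.const ()).pair Primrec.id))
  have hWlen : ∀ n, n ≤ (W (n + 1)).length := fun n => (hWX n).2.1
  have hWmono : ∀ n, (W n).length ≤ (W (n + 1)).length := fun n => (hWX n).1.2
  have hWmono' : ∀ n l, n ≤ l → (W n).length ≤ (W l).length :=
    fun n l h => monotone_nat_of_le_succ hWmono h
  have hWtake : ∀ n l, n ≤ l → (W l).take (W n).length = W n := by
    intro n l h
    induction l, h using Nat.le_induction with
    | base => exact List.take_length
    | succ l hl ih =>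
      have h1 := (hWX l).1.1
      simp only at h1
      rw [← min_eq_left (hWmono' n l hl), ← List.take_take, h1, ih]
  let y : ℕ → Fin k := fun i => ((W (i + 2))[i]?).getD (z0 0)
  have hy : ∀ n, pf y (W n).length = W n := by
    intro n
    apply List.ext_getElem
    · simp
    · intro i h1 h2
      rw [pf_getElem]
      have h3 : i < (W (i + 2)).length := lt_of_lt_of_le (Nat.lt_succ_self i) (hWlen (i + 1))
      have h4 : y i = (W (i + 2))[i] := by
        change ((W (i + 2))[i]?).getD (z0 0) = _
        rw [List.getElem?_eq_getElem h3]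
        rfl
      rw [h4]
      rcases le_total n (i + 2) with h5 | h5
      · have h6 := hWtake n (i + 2) h5
        have h7 : ((W (i + 2)).take (W n).length)[i]? = (W n)[i]? := by rw [h6]
        rw [List.getElem?_take_of_lt h2, List.getElem?_eq_getElem h2,
          List.getElem?_eq_getElem h3, Option.some.injEq] at h7
        exact h7
      · have h6 := hWtake (i + 2) n h5
        have h7 : ((W n).take (W (i + 2)).length)[i]? = (W (i + 2))[i]? := by rw [h6]
        rw [List.getElem?_take_of_lt h3, List.getElem?_eq_getElem h2,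
          List.getElem?_eq_getElem h3, Option.some.injEq] at h7
        exact h7.symm
  refine ⟨y, ?_, ?_, ?_⟩
  · have hp : ∀ n, ∃ z ∈ K, ∀ i < n, z i = y i := by
      intro n
      obtain ⟨z, hz, hzw⟩ := (pre_iff _ _).1 (hWK (n + 1))
      refine ⟨z, hz, fun i hi => ?_⟩
      have h1 : pf z (W (n + 1)).length = pf y (W (n + 1)).length := hzw.trans (hy (n + 1)).symm
      exact pf_inj h1 i (lt_of_lt_of_le hi (hWlen n))
    choose z hz hzi using hp
    have hcl : y ∈ closure K := by
      refine mem_closure_of_tendsto (f := z) (b := atTop) ?_ (Eventually.of_forall hz)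
      rw [tendsto_pi_nhds]
      intro i
      refine tendsto_const_nhds.congr' ?_
      filter_upwards [eventually_gt_atTop i] with n hn
      exact (hzi n i hn).symm
    rwa [hK.closure_eq] at hcl
  · have h1 : ArF S fun i : ℕ => W (i + 2) :=
      hWS.comp hS (ArF.of_primrec hS (Primrec.succ.comp Primrec.succ))
    have h2 : Primrec₂ fun (w : List (Fin k)) (i : ℕ) => (w[i]?).getD (z0 0) :=
      Primrec.option_getD.comp Primrec.list_getElem? (Primrec.const (z0 0))
    exact ArF.map₂ hS h2 h1 (ArF.id hS)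
  · intro n
    refine ⟨(W (n + 1)).length, ?_⟩
    have h1 : Q n (W (n + 1)) := (hWX n).2.2.2
    exact (hy (n + 1)).symm ▸ h1

end MX

end Pool.Agent.Work.MP_69fea5_lc.TW
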