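import Pool.Agent.Work.MP_69fea5_lc.TW.MX_C7
import Pool.Agent.Work.MP_69fea5_lc.TW.Dyn2

/-!
# Mixing steps
-/

set_option autoImplicit false

namespace Pool.Agent.Work.MP_69fea5_lc.TW

open HK Filter Topology

variable {k : ℕ}

/-- mixing step from `R` to `R'`: the translates of a cylinder of a class of `R` become dense
modulo `R'` in the class, at a syndetic set of times -/
def MixStep (R R' : Set ((ℕ → Fin k) × (ℕ → Fin k))) : Prop :=
  ∀ y z, (y, z) ∈ R → ∀ m, ∃ m₂ g, ∀ x, ∃ i < g, ∀ t : ℕ → Fin k, Close R m₂ (sh (x + i) y) t →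
    ∃ z', (y, z') ∈ R ∧ (∀ j < m, z' j = z j) ∧ Close R' m (sh (x + i) z') t

namespace MX

open XC2

theorem close_sh {M : Set (ℕ → Fin k)} {R : Set ((ℕ → Fin k) × (ℕ → Fin k))} (hR : ICER M R)
    {a b : ℕ → Fin k} {m i g : ℕ} (hi : i < g) (h : Close R (m + g) a b) :
    Close R m (sh i a) (sh i b) := by
  obtain ⟨p, hp, h1, h2⟩ := h
  exact ⟨(sh i p.1, sh i p.2), hR.sh hp i, fun j hj => h1 (i + j) (by omega),
    fun j hj => h2 (i + j) (by omega)⟩

/-- points that are right modulo `R'` are dense in the class -/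
theorem dense {M : Set (ℕ → Fin k)} {R R' : Set ((ℕ → Fin k) × (ℕ → Fin k))} (hR : ICER M R)
    (hm : MixStep R R') {c y : ℕ → Fin k} (hy : Right R c y) {z : ℕ → Fin k} (hz : (y, z) ∈ R)
    (m N : ℕ) : ∃ z', (y, z') ∈ R ∧ (∀ j < m, z' j = z j) ∧ ∃ x, N ≤ x ∧
      Close R' m (sh x z') (sh x c) := by
  obtain ⟨m₂, g, hg⟩ := hm y z hz m
  obtain ⟨x, hx, hc⟩ := hy (m₂ + g) N
  obtain ⟨i, hi, ht⟩ := hg x
  have h1 : Close R m₂ (sh (x + i) y) (sh (x + i) c) := by
    rw [← sh_sh, ← sh_sh]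
    exact close_sh hR hi hc
  obtain ⟨z', h2, h3, h4⟩ := ht _ h1
  exact ⟨z', h2, h3, x + i, by omega, h4⟩

/-- the requirement number `n` -/
def Req (R' : Set ((ℕ → Fin k) × (ℕ → Fin k))) (c : ℕ → Fin k) (n : ℕ) (w : List (Fin k)) :
    Prop :=
  ∃ x, (n ≤ x ∧ x + n ≤ w.length) ∧ ∃ v : List (Fin k), (v.length = n ∧
    ∀ i < n, v[i]? = some (c (x + i))) ∧ pre2 R' ((w.drop x).take n, v)

theorem pf_drop_take (y : ℕ → Fin k) (x n l : ℕ) (h : x + n ≤ l) :
    ((pf y l).drop x).take n = pf (sh x y) n := by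
  apply List.ext_getElem
  · simp
    omega
  · intro i h1 h2
    simp only [List.length_take, List.length_drop, pf_length] at h1
    rw [List.getElem_take, List.getElem_drop, pf_getElem, pf_getElem]
    rfl

theorem req_iff {R' : Set ((ℕ → Fin k) × (ℕ → Fin k))} {c y : ℕ → Fin k} {n l : ℕ} :
    Req R' c n (pf y l) ↔ ∃ x, n ≤ x ∧ x + n ≤ l ∧ Close R' n (sh x y) (sh x c) := by
  constructor
  · rintro ⟨x, ⟨h1, h2⟩, v, ⟨h3, h4⟩, h5⟩
    rw [pf_length] at h2
    refine ⟨x, h1, h2, ?_⟩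
    rw [pf_drop_take y x n l h2, list_eq_pf (a := sh x c) h3 h4, pre2_iff] at h5
    obtain ⟨p, hp, h6, h7⟩ := h5
    rw [pf_length] at h6 h7
    exact ⟨p, hp, pf_inj h6, pf_inj h7⟩
  · rintro ⟨x, h1, h2, p, hp, h6, h7⟩
    refine ⟨x, ⟨h1, by rw [pf_length]; exact h2⟩, pf (sh x c) n, ⟨by simp, fun i hi =>
      pf_getElem? _ _ _ hi⟩, ?_⟩
    rw [pf_drop_take y x n l h2, pre2_iff]
    refine ⟨p, hp, ?_, ?_⟩
    · rw [pf_length]
      exact pf_congr h6
    · rw [pf_length]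
      exact pf_congr h7

theorem ar_req {S : Set (Set ℕ)} (hS : Cl S) {R' : Set ((ℕ → Fin k) × (ℕ → Fin k))}
    (hR' : Ar S (pre2 R')) {c : ℕ → Fin k} (hc : ArF S c) :
    Ar S fun p : ℕ × List (Fin k) => Req R' c p.1 p.2 := by
  refine Ar.ex hS (R := fun (p : ℕ × List (Fin k)) (x : ℕ) => (p.1 ≤ x ∧ x + p.1 ≤ p.2.length) ∧
    ∃ v : List (Fin k), (v.length = p.1 ∧ ∀ i < p.1, v[i]? = some (c (x + i))) ∧
      pre2 R' ((p.2.drop x).take p.1, v)) ?_
  have e1 : Primrec fun q : (ℕ × List (Fin k)) × ℕ => q.1.1 := Primrec.fst.comp Primrec.fst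
  have e2 : Primrec fun q : (ℕ × List (Fin k)) × ℕ => q.1.2 := Primrec.snd.comp Primrec.fst
  refine Ar.and hS (Ar.and hS ?_ ?_) ?_
  · exact Ar.le hS (ArF.of_primrec hS e1) (ArF.snd hS)
  · exact Ar.le hS (ArF.of_primrec hS (Primrec.nat_add.comp Primrec.snd e1))
      (ArF.of_primrec hS (Primrec.list_length.comp e2))
  · refine Ar.ex hS (R := fun (q : (ℕ × List (Fin k)) × ℕ) (v : List (Fin k)) =>
      (v.length = q.1.1 ∧ ∀ i < q.1.1, v[i]? = some (c (q.2 + i))) ∧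
        pre2 R' ((q.1.2.drop q.2).take q.1.1, v)) ?_
    refine Ar.and hS (Ar.and hS ?_ ?_) ?_
    · exact Ar.eq hS (ArF.of_primrec hS (Primrec.list_length.comp Primrec.snd))
        (ArF.of_primrec hS (e1.comp Primrec.fst))
    · refine Ar.ball hS (R := fun (q : ((ℕ × List (Fin k)) × ℕ) × List (Fin k)) (i : ℕ) =>
        q.2[i]? = some (c (q.1.2 + i))) ?_ (ArF.of_primrec hS (e1.comp Primrec.fst))
      refine Ar.eq hS (ArF.of_primrec hS ?_) ?_
      · exact Primrec.list_getElem?.comp (Primrec.snd.comp Primrec.fst) Primrec.snd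
      · refine ArF.map hS Primrec.option_some ?_
        exact hc.comp hS (ArF.of_primrec hS (Primrec.nat_add.comp
          (Primrec.snd.comp (Primrec.fst.comp Primrec.fst)) Primrec.snd))
    · refine hR'.comp hS (Primrec.pair ?_ Primrec.snd)
      exact Primrec.list_take.comp (e1.comp Primrec.fst)
        (Primrec.list_drop.comp (Primrec.snd.comp Primrec.fst) (e2.comp Primrec.fst))

end MX

open MX XC2 in
/-- a mixing step -/
theorem good_mixing {S : Set (Set ℕ)} (hC1 : StC1) (hC2 : StC2) (hS : Cl S)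
    {M : Set (ℕ → Fin k)} {c : ℕ → Fin k} (hc : ArF S c)
    {R R' : Set ((ℕ → Fin k) × (ℕ → Fin k))} (hR : ICER M R) (hRS : Ar S (pre2 R))
    (hR' : ICER M R') (hRS' : Ar S (pre2 R')) (hm : MixStep R R')
    (h : Good S M c R) : Good S M c R' := by
  obtain ⟨E, hEn, hEc, hEM, hsat, hright, hES⟩ := h
  obtain ⟨y, hyE, hyS⟩ := hC1 k S hS E hEc hEn hES
  have hKc : IsClosed {z | (y, z) ∈ R} := hR.closed.preimage (continuous_const.prodMk continuous_id)
  have hKM : {z | (y, z) ∈ R} ⊆ M := fun z hz => (hR.sub _ _ hz).2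
  have hKn : {z | (y, z) ∈ R}.Nonempty := ⟨y, hR.refl y (hEM hyE)⟩
  have hKS : Ar S (pre {z | (y, z) ∈ R}) := hC2 k S hS R hR.closed hRS y hyS
  obtain ⟨y', hy', hyS', hreq⟩ := baire hS hKc hKn hKS (Q := Req R' c) (ar_req hS hRS' hc) (by
    intro n w hw
    obtain ⟨z, hz, hzw⟩ := (pre_iff _ _).1 hw
    obtain ⟨z', h1, h2, x, hx, h3⟩ := dense hR hm (hright y hyE) hz (max w.length n) n
    have h4 : pf z' w.length = w := by
      rw [← hzw, pf_length]
      exact pf_congr fun i hi => h2 i (lt_of_lt_of_le hi (le_max_left _ _))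
    refine ⟨pf z' (max w.length (x + n)), ?_, ?_, ?_, ?_⟩
    · rw [pf_take z' (le_max_left _ _), h4]
    · rw [pf_length]
      exact le_max_left _ _
    · exact (pre_iff _ _).2 ⟨z', h1, by simp⟩
    · exact req_iff.2 ⟨x, hx, le_max_right _ _, close_mono (le_max_right _ _) h3⟩)
  have hr : Right R' c y' := by
    intro m N
    obtain ⟨l, hl⟩ := hreq (max m N)
    obtain ⟨x, h1, _, h2⟩ := req_iff.1 hl
    exact ⟨x, le_trans (le_max_right _ _) h1, close_mono (le_max_left _ _) h2⟩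
  have hKc' : IsClosed {z | (y', z) ∈ R'} :=
    hR'.closed.preimage (continuous_const.prodMk continuous_id)
  refine ⟨{z | (y', z) ∈ R'}, ⟨y', hR'.refl y' (hKM hy')⟩, hKc', fun z hz => (hR'.sub _ _ hz).2,
    fun z hz z' hz' => hR'.trans _ _ _ hz hz', fun z hz => I_D3 k M R' hR' c y' z hz hr,
    hC2 k S hS R' hR'.closed hRS' y' hyS'⟩

end Pool.Agent.Work.MP_69fea5_lc.TW
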