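import Pool.Agent.Work.MP_69fea5_lc.TW.MX_Good

/-!
# Weakly mixing minimal subshifts
-/

set_option autoImplicit false

namespace Pool.Agent.Work.MP_69fea5_lc.TW

open HK Filter Topology

variable {k : ℕ}

/-- weakly mixing subshifts: any two pairs of cylinders have a common transition time -/
def WeakMix (M : Set (ℕ → Fin k)) : Prop :=
  ∀ m, ∀ a ∈ M, ∀ b ∈ M, ∀ a' ∈ M, ∀ b' ∈ M, ∃ x,
    (∃ z ∈ M, (∀ j < m, z j = a j) ∧ ∀ j < m, z (x + j) = b j) ∧
    ∃ z ∈ M, (∀ j < m, z j = a' j) ∧ ∀ j < m, z (x + j) = b' j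

/-- the full relation -/
def full (M : Set (ℕ → Fin k)) : Set ((ℕ → Fin k) × (ℕ → Fin k)) := {p | p.1 ∈ M ∧ p.2 ∈ M}

/-- the diagonal -/
def diag (M : Set (ℕ → Fin k)) : Set ((ℕ → Fin k) × (ℕ → Fin k)) := {p | p.1 ∈ M ∧ p.2 = p.1}

theorem icer_full {M : Set (ℕ → Fin k)} (hM : MinimalSubshift M) : ICER M (full M) where
  closed := (hM.closed.preimage continuous_fst).inter (hM.closed.preimage continuous_snd)
  sub _ _ h := h
  refl _ h := ⟨h, h⟩
  symm _ _ h := ⟨h.2, h.1⟩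
  trans _ _ _ h h' := ⟨h.1, h'.2⟩
  shift _ _ h := ⟨hM.shift _ h.1, hM.shift _ h.2⟩

theorem icer_diag {M : Set (ℕ → Fin k)} (hM : MinimalSubshift M) : ICER M (diag M) where
  closed := (hM.closed.preimage continuous_fst).inter (isClosed_eq continuous_snd continuous_fst)
  sub a b h := ⟨h.1, by rw [show b = a from h.2]; exact h.1⟩
  refl _ h := ⟨h, rfl⟩
  symm a b h := ⟨by rw [show b = a from h.2]; exact h.1, (show b = a from h.2).symm⟩
  trans a b d h h' := ⟨h.1, (show d = b from h'.2).trans (show b = a from h.2)⟩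
  shift a b h := ⟨hM.shift _ h.1, by
    have e : b = a := h.2
    show (fun n => b (n + 1)) = fun n => a (n + 1)
    rw [e]⟩

theorem ar_full {S : Set (Set ℕ)} (hS : Cl S) {M : Set (ℕ → Fin k)} (h : Ar S (pre M)) :
    Ar S (pre2 (full M)) := by
  refine Ar.congr (R := fun w : List (Fin k) × List (Fin k) => pre M w.1 ∧ pre M w.2) ?_ ?_
  · exact Ar.and hS (h.comp hS Primrec.fst) (h.comp hS Primrec.snd)
  · intro w
    constructor
    · rintro ⟨p, hp, h1, h2⟩
      exact ⟨⟨p.1, hp.1, h1⟩, ⟨p.2, hp.2, h2⟩⟩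
    · rintro ⟨⟨a, ha, h1⟩, ⟨b, hb, h2⟩⟩
      exact ⟨(a, b), ⟨ha, hb⟩, h1, h2⟩

theorem ar_diag {S : Set (Set ℕ)} (hS : Cl S) {M : Set (ℕ → Fin k)} (h : Ar S (pre M)) :
    Ar S (pre2 (diag M)) := by
  -- one of the two words is a prefix of the other
  refine Ar.congr (R := fun w : List (Fin k) × List (Fin k) =>
    (pre M w.1 ∧ w.1.take w.2.length = w.2) ∨ (pre M w.2 ∧ w.2.take w.1.length = w.1)) ?_ ?_
  · refine Ar.or hS (Ar.and hS (h.comp hS Primrec.fst) ?_) (Ar.and hS (h.comp hS Primrec.snd) ?_)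
    · exact Ar.eq hS (ArF.of_primrec hS (Primrec.list_take.comp
        (Primrec.list_length.comp Primrec.snd) Primrec.fst)) (ArF.snd hS)
    · exact Ar.eq hS (ArF.of_primrec hS (Primrec.list_take.comp
        (Primrec.list_length.comp Primrec.fst) Primrec.snd)) (ArF.fst hS)
  · rintro ⟨u, v⟩
    simp only
    rw [XC2.pre2_iff, XC2.pre_iff, XC2.pre_iff]
    constructor
    · rintro ⟨⟨a, b⟩, ⟨ha, hb⟩, h1, h2⟩
      simp only at ha hb h1 h2
      subst hb
      rcases le_total v.length u.length with hl | hl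
      · left
        refine ⟨⟨b, ha, h1⟩, ?_⟩
        rw [← h1, XC2.pf_take b hl, h2]
      · right
        refine ⟨⟨b, ha, h2⟩, ?_⟩
        rw [← h2, XC2.pf_take b hl, h1]
    · rintro (⟨⟨a, ha, h1⟩, h2⟩ | ⟨⟨a, ha, h1⟩, h2⟩)
      · refine ⟨(a, a), ⟨ha, rfl⟩, h1, ?_⟩
        have hl : v.length ≤ u.length := by
          have := congrArg List.length h2
          rw [List.length_take] at this
          omega
        rw [← XC2.pf_take a hl, h1, h2]
      · refine ⟨(a, a), ⟨ha, rfl⟩, ?_, h1⟩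
        have hl : u.length ≤ v.length := by
          have := congrArg List.length h2
          rw [List.length_take] at this
          omega
        rw [← XC2.pf_take a hl, h1, h2]

namespace MX

/-- transition times -/
def NN (M : Set (ℕ → Fin k)) (m : ℕ) (a b : ℕ → Fin k) : Set ℕ :=
  {x | ∃ z ∈ M, (∀ j < m, z j = a j) ∧ ∀ j < m, z (x + j) = b j}

theorem NN_mono {M : Set (ℕ → Fin k)} {m m' : ℕ} (h : m ≤ m') (a b : ℕ → Fin k) :
    NN M m' a b ⊆ NN M m a b := by
  rintro x ⟨z, hz, h1, h2⟩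
  exact ⟨z, hz, fun j hj => h1 j (hj.trans_le h), fun j hj => h2 j (hj.trans_le h)⟩

theorem NN_congr {M : Set (ℕ → Fin k)} {m : ℕ} {a b b' : ℕ → Fin k} (h : ∀ j < m, b j = b' j) :
    NN M m a b ⊆ NN M m a b' := by
  rintro x ⟨z, hz, h1, h2⟩
  exact ⟨z, hz, h1, fun j hj => (h2 j hj).trans (h j hj)⟩

/-- Furstenberg's lemma -/
theorem NN_inter {M : Set (ℕ → Fin k)} (hM : MinimalSubshift M) (hw : WeakMix M) (m : ℕ)
    {a b a' b' : ℕ → Fin k} (ha : a ∈ M) (hb : b ∈ M) (ha' : a' ∈ M) (hb' : b' ∈ M) :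
    ∃ m', ∃ A ∈ M, ∃ B ∈ M, NN M m' A B ⊆ NN M m a b ∩ NN M m a' b' := by
  obtain ⟨n, ⟨A, hA, h1, h2⟩, ⟨B, hB, h3, h4⟩⟩ := hw m a ha a' ha' b hb b' hb'
  refine ⟨n + m, A, hA, B, hB, ?_⟩
  rintro x ⟨z, hz, h5, h6⟩
  constructor
  · exact ⟨z, hz, fun j hj => by rw [h5 j (by omega), h1 j hj],
      fun j hj => by rw [h6 j (by omega), h3 j hj]⟩
  · refine ⟨sh n z, ?_, fun j hj => ?_, fun j hj => ?_⟩
    · have : ∀ n, sh n z ∈ M := by
        intro n
        induction n with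
        | zero => rw [sh_zero]; exact hz
        | succ n ih =>
          have := hM.shift _ ih
          have e : (fun i => sh n z (i + 1)) = sh (n + 1) z := by
            funext i
            show z (n + (i + 1)) = z (n + 1 + i)
            congr 1
            omega
          rwa [e] at this
      exact this n
    · show z (n + j) = a' j
      rw [h5 (n + j) (by omega), h2 j hj]
    · show z (n + (x + j)) = b' j
      rw [show n + (x + j) = x + (n + j) by omega, h6 (n + j) (by omega), h4 j hj]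

theorem NN_fin {M : Set (ℕ → Fin k)} (hM : MinimalSubshift M) (hw : WeakMix M) (m : ℕ)
    {a : ℕ → Fin k} (ha : a ∈ M) (s : Finset (Fin m → Fin k)) :
    ∃ m', ∃ A ∈ M, ∃ B ∈ M, ∀ b ∈ M, (fun j : Fin m => b j) ∈ s → NN M m' A B ⊆ NN M m a b := by
  classical
  induction s using Finset.induction_on with
  | empty => exact ⟨0, a, ha, a, ha, fun b _ h => absurd h (Finset.notMem_empty _)⟩
  | insert w s _ ih =>
    obtain ⟨m', A, hA, B, hB, h⟩ := ih
    by_cases hw' : ∃ b ∈ M, (fun j : Fin m => b j) = w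
    · obtain ⟨b0, hb0, rfl⟩ := hw'
      obtain ⟨m'', A', hA', B', hB', h'⟩ := NN_inter hM hw (max m m') hA hB ha hb0
      refine ⟨m'', A', hA', B', hB', fun b hb hbs => ?_⟩
      rcases Finset.mem_insert.1 hbs with e | hbs
      · refine (h'.trans Set.inter_subset_right).trans ((NN_mono (le_max_left _ _) _ _).trans
          (NN_congr fun j hj => ?_))
        exact (congrFun e ⟨j, hj⟩).symm
      · exact (h'.trans Set.inter_subset_left).trans ((NN_mono (le_max_right _ _) _ _).trans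
          (h b hb hbs))
    · refine ⟨m', A, hA, B, hB, fun b hb hbs => ?_⟩
      rcases Finset.mem_insert.1 hbs with e | hbs
      · exact absurd ⟨b, hb, e⟩ hw'
      · exact h b hb hbs

theorem shM {M : Set (ℕ → Fin k)} (hM : MinimalSubshift M) {z : ℕ → Fin k} (hz : z ∈ M) (n : ℕ) :
    sh n z ∈ M := (icer_full hM).sh (a := z) (b := z) ⟨hz, hz⟩ n |>.1

/-- returns to a cylinder are syndetic -/
theorem returns {M : Set (ℕ → Fin k)} (hM : MinimalSubshift M) {w : ℕ → Fin k} (hw : w ∈ M)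
    (l : ℕ) : ∃ g, ∀ v ∈ M, ∃ i < g, ∀ j < l, v (i + j) = w j := by
  by_contra hcon
  push Not at hcon
  choose v hv hv' using hcon
  obtain ⟨z, hz, φ, hφ, ht⟩ := hM.closed.isCompact.tendsto_subseq hv
  -- the orbit of `z` avoids the cylinder
  have h1 : ∀ i, ∃ j < l, z (i + j) ≠ w j := by
    intro i
    have h2 : ∀ᶠ n in atTop, ∀ j ∈ Finset.range (i + l), v (φ n) j = z j := by
      rw [Filter.eventually_all_finset]
      intro j _
      have := tendsto_pi_nhds.1 ht j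
      rw [nhds_discrete, tendsto_pure] at this
      exact this
    obtain ⟨n, h3, h4⟩ := (h2.and (eventually_gt_atTop i)).exists
    obtain ⟨j, hj, h5⟩ := hv' (φ n) i (lt_of_lt_of_le h4 (hφ.id_le n))
    refine ⟨j, hj, ?_⟩
    rw [← h3 (i + j) (by simp; omega)]
    exact h5
  -- orbit closure
  let N : Set (ℕ → Fin k) := {u | u ∈ M ∧ ∀ i, ∃ j < l, u (i + j) ≠ w j}
  have hN : N = M := by
    refine hM.minimal N (fun u hu => hu.1) ⟨z, hz, h1⟩ ?_ ?_
    · refine IsClosed.inter hM.closed ?_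
      have e : {u : ℕ → Fin k | ∀ i, ∃ j < l, u (i + j) ≠ w j} =
          ⋂ i, ⋃ j ∈ Finset.range l, {u | u (i + j) ≠ w j} := by
        ext u
        simp
      change IsClosed {u : ℕ → Fin k | ∀ i, ∃ j < l, u (i + j) ≠ w j}
      rw [e]
      refine isClosed_iInter fun i => isClosed_biUnion_finset fun j _ => ?_
      have : {u : ℕ → Fin k | u (i + j) ≠ w j} = (fun u : ℕ → Fin k => u (i + j)) ⁻¹' {w j}ᶜ := by
        ext u
        simp
      rw [this]
      exact (isClosed_discrete _).preimage (continuous_apply _)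
    · rintro u ⟨hu, hu'⟩
      refine ⟨hM.shift u hu, fun i => ?_⟩
      obtain ⟨j, hj, h6⟩ := hu' (i + 1)
      refine ⟨j, hj, ?_⟩
      rw [show i + 1 + j = i + j + 1 by omega] at h6
      exact h6
  have : w ∈ N := by rw [hN]; exact hw
  obtain ⟨j, _, h7⟩ := this.2 0
  rw [Nat.zero_add] at h7
  exact h7 rfl

end MX

open MX in
/-- weakly mixing minimal subshifts -/
theorem mixStep_of_weakMix {M : Set (ℕ → Fin k)} (hM : MinimalSubshift M) (hw : WeakMix M) :
    MixStep (full M) (diag M) := by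
  rintro y z ⟨hy, hz⟩ m
  obtain ⟨m', A, hA, B, hB, h⟩ := NN_fin hM hw m hz Finset.univ
  obtain ⟨n, ⟨W, hW, h1, h2⟩, -⟩ := hw m' A hA B hB A hA B hB
  obtain ⟨g, hg⟩ := returns hM hW (n + m')
  refine ⟨m, g + n, fun x => ?_⟩
  obtain ⟨i, hi, h3⟩ := hg (sh x W) (shM hM hW x)
  refine ⟨i + n, by omega, fun t ht => ?_⟩
  obtain ⟨p, hp, -, h4⟩ := ht
  have h5 : x + (i + n) ∈ NN M m' A B := by
    refine ⟨W, hW, h1, fun j hj => ?_⟩
    have h6 := h3 (n + j) (by omega)
    have h7 : W (x + (i + (n + j))) = W (n + j) := h6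
    rw [show x + (i + n) + j = x + (i + (n + j)) by omega, h7, h2 j hj]
  obtain ⟨z', hz', h8, h9⟩ := h p.2 hp.2 (Finset.mem_univ _) h5
  refine ⟨z', ⟨hy, hz'⟩, h8, (sh (x + (i + n)) z', sh (x + (i + n)) z'),
    ⟨shM hM hz' _, rfl⟩, fun _ _ => rfl, fun j hj => ?_⟩
  show z' (x + (i + n) + j) = t j
  rw [h9 j hj, h4 j hj]

end Pool.Agent.Work.MP_69fea5_lc.TW
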