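import Pool.Agent.Work.MP_69fea5_lc.TW.Defs

/-!
# Statements of the items of the block TW
-/

set_option autoImplicit false

namespace Pool.Agent.Work.MP_69fea5_lc.TW

open HK

/-! ### coding -/

/-- C1: a point of a closed set in `S` -/
def StC1 : Prop := ∀ (k : ℕ) (S : Set (Set ℕ)), Cl S → ∀ E : Set (ℕ → Fin k), IsClosed E →
  E.Nonempty → Ar S (pre E) → ∃ y ∈ E, ArF S y

/-- C2: the class of a point -/
def StC2 : Prop := ∀ (k : ℕ) (S : Set (Set ℕ)), Cl S → ∀ R : Set ((ℕ → Fin k) × (ℕ → Fin k)),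
  IsClosed R → Ar S (pre2 R) → ∀ y : ℕ → Fin k, ArF S y → Ar S (pre {z | (y, z) ∈ R})

/-- C3: the set `Ret` -/
def StC3 : Prop := ∀ (k : ℕ) (S : Set (Set ℕ)), Cl S → ∀ (M : Set (ℕ → Fin k))
  (R : Set ((ℕ → Fin k) × (ℕ → Fin k))), ICER M R → Ar S (pre2 R) →
  ∀ c : ℕ → Fin k, ArF S c → ∀ K : Set (ℕ → Fin k), IsClosed K → K ⊆ M → Ar S (pre K) →
  IsClosed (Ret R c K) ∧ Ar S (pre (Ret R c K))

/-- C4: the sets `AA`, uniformly -/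
def StC4 : Prop := ∀ (k : ℕ) (S : Set (Set ℕ)), Cl S → ∀ (M : Set (ℕ → Fin k))
  (R : ℕ → Set ((ℕ → Fin k) × (ℕ → Fin k))), IsClosed M → (∀ n, ICER M (R n)) →
  (Ar S fun p : ℕ × List (Fin k) × List (Fin k) => pre2 (R p.1) p.2) →
  ∀ c : ℕ → Fin k, ArF S c →
  (∀ n q, IsClosed (AA (R n) (R (n + 1)) c q)) ∧
  Ar S fun p : (ℕ × ℕ × ℕ × ℕ × ℕ) × List (Fin k) =>
    pre (AA (R p.1.1) (R (p.1.1 + 1)) c p.1.2) p.2

/-- C5: countable intersections, uniformly -/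
def StC5 : Prop := ∀ (k : ℕ) (S : Set (Set ℕ)), Cl S → ∀ (α : Type) [Primcodable α]
  (F : α → ℕ → Set (ℕ → Fin k)), (∀ a n, IsClosed (F a n)) →
  (Ar S fun p : (α × ℕ) × List (Fin k) => pre (F p.1.1 p.1.2) p.2) →
  Ar S fun p : α × List (Fin k) => pre (⋂ n, F p.1 n) p.2

/-- C6: the solution -/
def StC6 : Prop := ∀ (k : ℕ) (S : Set (Set ℕ)), Cl S → ∀ (M : Set (ℕ → Fin k)),
  MinimalSubshift M → ∀ c : ℕ → Fin k, ArF S c → ∀ y ∈ M, ArF S y →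
  (∀ m N, ∃ x, N ≤ x ∧ ∀ i < m, y (x + i) = c (x + i)) →
  ∃ X ∈ S, X.Infinite ∧ (∀ x ∈ X, 0 < x) ∧
    ∃ i, ∀ F : Finset ℕ, F.Nonempty → (↑F : Set ℕ) ⊆ X → c (∑ x ∈ F, x) = i

/-! ### dynamics -/

/-- D1: no dead ends: every class of a right point contains a point proximal to `c` -/
def StD1 : Prop := ∀ (k : ℕ) (M : Set (ℕ → Fin k)), MinimalSubshift M →
  ∀ (R : Set ((ℕ → Fin k) × (ℕ → Fin k))), ICER M R → ∀ c y : ℕ → Fin k, y ∈ M → Right R c y →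
  ∃ z, (y, z) ∈ R ∧ ∀ R', ICER M R' → Right R' c z

/-- D2: proximal steps -/
def StD2 : Prop := ∀ (k : ℕ) (M : Set (ℕ → Fin k)), MinimalSubshift M →
  ∀ (R R' : Set ((ℕ → Fin k) × (ℕ → Fin k))), ICER M R → ICER M R' → ProxStep R R' →
  ∀ c y : ℕ → Fin k, Right R c y → Right R' c y

/-- D3: the relation `Right` is invariant under `R` -/
def StD3 : Prop := ∀ (k : ℕ) (M : Set (ℕ → Fin k)) (R : Set ((ℕ → Fin k) × (ℕ → Fin k))),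
  ICER M R → ∀ c y z : ℕ → Fin k, (y, z) ∈ R → Right R c y → Right R c z

/-- D4: distal steps -/
def StD4 : Prop := ∀ (k : ℕ) (M : Set (ℕ → Fin k)), MinimalSubshift M →
  ∀ (R R' : Set ((ℕ → Fin k) × (ℕ → Fin k))), ICER M R → ICER M R' → R' ⊆ R → DistStep R R' →
  ∀ c y : ℕ → Fin k, y ∈ M → Right R c y → (Ret R' c {z | (y, z) ∈ R}).Nonempty

/-- D5: the first step -/
def StD5 : Prop := ∀ (k : ℕ) (M : Set (ℕ → Fin k)), MinimalSubshift M →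
  ∀ (R : Set ((ℕ → Fin k) × (ℕ → Fin k))), ICER M R → ∀ c y : ℕ → Fin k, y ∈ M →
  ProxMod R y c → (∀ z ∈ M, ProxMod R y z → (y, z) ∈ R) → y ∈ Ret R c M

/-- D6: points of `Ret` are right, `Ret` is saturated -/
def StD6 : Prop := ∀ (k : ℕ) (M : Set (ℕ → Fin k)) (R : Set ((ℕ → Fin k) × (ℕ → Fin k))),
  ICER M R → ∀ (c : ℕ → Fin k) (K : Set (ℕ → Fin k)), K ⊆ M →
  (∀ y ∈ K, ∀ z, (y, z) ∈ R → z ∈ K) →
  (∀ y ∈ Ret R c K, Right R c y) ∧ ∀ y ∈ Ret R c K, ∀ z, (y, z) ∈ R → z ∈ Ret R c K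

/-- D7: finite steps: at the maximal number of separated bad classes everything is right -/
def StD7 : Prop := ∀ (k : ℕ) (M : Set (ℕ → Fin k)), MinimalSubshift M →
  ∀ (R R' : Set ((ℕ → Fin k) × (ℕ → Fin k))), ICER M R → ICER M R' → R' ⊆ R → DistStep R R' →
  ∀ (c : ℕ → Fin k) (E : Set (ℕ → Fin k)), E ⊆ M → (∀ y ∈ E, ∀ z, (y, z) ∈ R → z ∈ E) →
  (∀ y ∈ E, Right R c y) → ∀ q : ℕ × ℕ × ℕ × ℕ,
  (∀ q' : ℕ × ℕ × ℕ × ℕ, q.1 < q'.1 → ¬ (E ∩ AA R R' c q').Nonempty) →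
  ∀ y ∈ E ∩ AA R R' c q, Right R' c y

/-- D8: the bound for finite steps -/
def StD8 : Prop := ∀ (k : ℕ) (M : Set (ℕ → Fin k)) (R R' : Set ((ℕ → Fin k) × (ℕ → Fin k))),
  ICER M R → ICER M R' → R' ⊆ R → FinStep R R' → ∀ c : ℕ → Fin k,
  ∃ p, ∀ q : ℕ × ℕ × ℕ × ℕ, p < q.1 → AA R R' c q = ∅

/-- D9: limits of towers -/
def StD9 : Prop := ∀ (k : ℕ) (M : Set (ℕ → Fin k)) (R : ℕ → Set ((ℕ → Fin k) × (ℕ → Fin k))),
  (∀ n, ICER M (R n)) → (∀ n, R (n + 1) ⊆ R n) → ∀ c y : ℕ → Fin k, (∀ n, Right (R n) c y) →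
  Right (⋂ n, R n) c y

end Pool.Agent.Work.MP_69fea5_lc.TW
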